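import Pool.Agent.H.MP_027d00_lc.mono.Defs

/-!
# Functions of small monotone formula size
-/

set_option autoImplicit false

namespace Pool.Agent.H.MP_027d00_lc.Monot

open Finset

/-- `h` has a monotone formula of size at most `s`. -/
def MComp {V : Type} (s : ℕ) (h : (V → Bool) → Bool) : Prop :=
  ∃ F : Mf V, F.size ≤ s ∧ ∀ x, F.eval x = h x

namespace MComp

variable {V : Type} {s t : ℕ} {h k : (V → Bool) → Bool}

theorem mono (hst : s ≤ t) (hh : MComp s h) : MComp t h := by
  obtain ⟨F, hF, he⟩ := hh
  exact ⟨F, hF.trans hst, he⟩

theorem const (s : ℕ) (b : Bool) : MComp s (fun _ : V → Bool => b) :=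
  ⟨.const b, Nat.zero_le _, fun _ => rfl⟩

theorem var (v : V) : MComp 1 (fun x : V → Bool => x v) := ⟨.var v, le_rfl, fun _ => rfl⟩

theorem and (hh : MComp s h) (hk : MComp t k) : MComp (s + t) (fun x => h x && k x) := by
  obtain ⟨F, hF, he⟩ := hh
  obtain ⟨G, hG, he'⟩ := hk
  exact ⟨.and F G, Nat.add_le_add hF hG, fun x => by simp [Mf.eval, he, he']⟩

theorem or (hh : MComp s h) (hk : MComp t k) : MComp (s + t) (fun x => h x || k x) := by
  obtain ⟨F, hF, he⟩ := hh
  obtain ⟨G, hG, he'⟩ := hk
  exact ⟨.or F G, Nat.add_le_add hF hG, fun x => by simp [Mf.eval, he, he']⟩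

theorem congr (hh : MComp s h) (e : ∀ x, h x = k x) : MComp s k := by
  obtain ⟨F, hF, he⟩ := hh
  exact ⟨F, hF, fun x => (he x).trans (e x)⟩

/-- the dual formula -/
def dual : Mf V → Mf V
  | .const b => .const (!b)
  | .var v => .var v
  | .and F G => .or (dual F) (dual G)
  | .or F G => .and (dual F) (dual G)

theorem dual_size (F : Mf V) : (dual F).size = F.size := by
  induction F with
  | const b => rfl
  | var v => rfl
  | and F G ihF ihG => simp [dual, Mf.size, ihF, ihG]
  | or F G ihF ihG => simp [dual, Mf.size, ihF, ihG]

theorem dual_eval (F : Mf V) (x : V → Bool) :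
    (dual F).eval x = !(F.eval (fun v => !(x v))) := by
  induction F with
  | const b => rfl
  | var v => simp [dual, Mf.eval]
  | and F G ihF ihG => simp [dual, Mf.eval, ihF, ihG]
  | or F G ihF ihG => simp [dual, Mf.eval, ihF, ihG]

theorem dualize (hh : MComp s h) : MComp s (fun x => !(h (fun v => !(x v)))) := by
  obtain ⟨F, hF, he⟩ := hh
  exact ⟨dual F, by rw [dual_size]; exact hF, fun x => by rw [dual_eval, he]⟩

theorem finset_and {ι : Type} (I : Finset ι) (H : ι → (V → Bool) → Bool)
    (hH : ∀ i ∈ I, MComp s (H i)) :
    MComp (I.card * s) (fun x => decide (∀ i ∈ I, H i x = true)) := by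
  classical
  induction I using Finset.induction_on with
  | empty => simpa using MComp.const (V := V) 0 true
  | insert i I hi ih =>
    have h1 := (hH i (Finset.mem_insert_self i I)).and
      (ih (fun j hj => hH j (Finset.mem_insert_of_mem hj)))
    have e : (fun x => decide (∀ j ∈ insert i I, H j x = true)) =
        fun x => H i x && decide (∀ j ∈ I, H j x = true) := by
      funext x
      by_cases hx : H i x = true
      · simp [hx]
      · have : H i x = false := by simpa using hx
        simp [this]
    rw [e, Finset.card_insert_of_notMem hi]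
    exact h1.mono (by ring_nf; exact le_rfl)

theorem finset_or {ι : Type} (I : Finset ι) (H : ι → (V → Bool) → Bool)
    (hH : ∀ i ∈ I, MComp s (H i)) :
    MComp (I.card * s) (fun x => decide (∃ i ∈ I, H i x = true)) := by
  classical
  induction I using Finset.induction_on with
  | empty => simpa using MComp.const (V := V) 0 false
  | insert i I hi ih =>
    have h1 := (hH i (Finset.mem_insert_self i I)).or
      (ih (fun j hj => hH j (Finset.mem_insert_of_mem hj)))
    have e : (fun x => decide (∃ j ∈ insert i I, H j x = true)) =
        fun x => H i x || decide (∃ j ∈ I, H j x = true) := by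
      funext x
      by_cases hx : H i x = true
      · simp [hx]
      · have : H i x = false := by simpa using hx
        simp [this]
    rw [e, Finset.card_insert_of_notMem hi]
    exact h1.mono (by ring_nf; exact le_rfl)

end MComp

/-- Monotonicity. -/
theorem Mf.eval_mono {V : Type} (F : Mf V) {x y : V → Bool}
    (h : ∀ v, x v = true → y v = true) (hx : F.eval x = true) : F.eval y = true := by
  induction F with
  | const b => exact hx
  | var v => exact h v hx
  | and F G ihF ihG =>
    simp only [Mf.eval, Bool.and_eq_true] at hx ⊢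
    exact ⟨ihF hx.1, ihG hx.2⟩
  | or F G ihF ihG =>
    simp only [Mf.eval, Bool.or_eq_true] at hx ⊢
    exact hx.imp ihF ihG

/-- A formula that distinguishes `x` from `y` has a variable that does. -/
theorem Mf.conflict {V : Type} (F : Mf V) {x y : V → Bool} (hx : F.eval x = true)
    (hy : F.eval y = false) : ∃ v, x v = true ∧ y v = false := by
  by_contra hcon
  push Not at hcon
  have := F.eval_mono (x := x) (y := y) (fun v hv => by
    have := hcon v hv
    cases h : y v
    · exact absurd h this
    · rfl) hx
  rw [hy] at this
  exact absurd this (by simp)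

/-- Substitution of functions with a formula with at most one leaf in a formula. -/
theorem Mf.toMComp {V W : Type} (F : Mf V) (σ : V → (W → Bool) → Bool)
    (hσ : ∀ v, MComp 1 (σ v)) : MComp F.size (fun x => F.eval (fun v => σ v x)) := by
  induction F with
  | const b => exact MComp.const _ b
  | var v => exact hσ v
  | and F G ihF ihG => exact ihF.and ihG
  | or F G ihF ihG => exact ihF.or ihG

theorem msize_le {V : Type} {s : ℕ} {h : (V → Bool) → Bool} (hh : MComp s h) : msize h ≤ s := by
  obtain ⟨F, hF, he⟩ := hh
  have h1 : F.size ∈ {s : ℕ | ∃ F : Mf V, F.size = s ∧ ∀ x, F.eval x = h x} := ⟨F, rfl, he⟩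
  exact (Nat.sInf_le h1).trans hF

/-- A function has a formula of its formula size. -/
theorem mcomp_iff {V : Type} {s : ℕ} {h : (V → Bool) → Bool} (hne : ∃ t, MComp t h) :
    MComp s h ↔ msize h ≤ s := by
  constructor
  · exact msize_le
  · intro hs
    have hn : {s : ℕ | ∃ F : Mf V, F.size = s ∧ ∀ x, F.eval x = h x}.Nonempty := by
      obtain ⟨t, F, _, hF⟩ := hne
      exact ⟨F.size, F, rfl, hF⟩
    obtain ⟨F, hF, he⟩ := Nat.sInf_mem hn
    exact ⟨F, by rw [hF]; exact hs, he⟩

/-- Every monotone function has a monotone formula of size at most `n 2^n`. -/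
theorem mcomp_all {n : ℕ} {h : (Fin n → Bool) → Bool} (hmon : Monotone h) :
    MComp (2 ^ n * n) h := by
  classical
  set I : Finset (Fin n → Bool) := Finset.univ.filter (fun x => h x = true) with hI
  have h1 : ∀ y ∈ I, MComp n (fun x : Fin n → Bool =>
      decide (∀ i ∈ univ.filter (fun i => y i = true), x i = true)) := by
    intro y _
    have h2 := MComp.finset_and (V := Fin n) (s := 1) (univ.filter (fun i => y i = true))
      (fun i x => x i) (fun i _ => MComp.var i)
    refine (h2.congr (fun x => ?_)).mono (t := n) ?_
    · exact decide_eq_decide.2 Iff.rfl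
    · rw [mul_one]
      exact (Finset.card_le_univ _).trans (by simp)
  have h2 := MComp.finset_or I (fun y x =>
    decide (∀ i ∈ univ.filter (fun i => y i = true), x i = true)) h1
  have e : ∀ x, decide (∃ y ∈ I, decide (∀ i ∈ univ.filter (fun i => y i = true),
      x i = true) = true) = h x := by
    intro x
    cases hx : h x with
    | true =>
      rw [decide_eq_true_eq]
      refine ⟨x, by simp [hI, hx], ?_⟩
      rw [decide_eq_true_eq]
      intro i hi
      exact (Finset.mem_filter.1 hi).2
    | false =>
      rw [decide_eq_false_iff_not]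
      rintro ⟨y, hy, hxy⟩
      rw [decide_eq_true_eq] at hxy
      have hle : y ≤ x := by
        intro i
        by_cases hi : y i = true
        · have := hxy i (by simp [hi])
          rw [this]; exact Bool.le_true _
        · have : y i = false := by simpa using hi
          rw [this]; exact Bool.false_le _
      have h3 := hmon hle
      rw [(Finset.mem_filter.1 hy).2, hx] at h3
      exact absurd h3 (by decide)
  refine (h2.congr e).mono (Nat.mul_le_mul_right _ ?_)
  calc I.card ≤ (Finset.univ : Finset (Fin n → Bool)).card := Finset.card_le_card (Finset.subset_univ _)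
    _ = 2 ^ n := by simp

theorem Mf.size_le {V : Type} (F : Mf V) : F.size ≤ 2 ^ F.depth := by
  induction F with
  | const b => simp [Mf.size]
  | var v => simp [Mf.size, Mf.depth]
  | and F G ihF ihG =>
    simp only [Mf.size, Mf.depth, pow_succ]
    have h0 : 2 ^ F.depth ≤ 2 ^ max F.depth G.depth :=
      Nat.pow_le_pow_right (by norm_num) (le_max_left _ _)
    have h1 : 2 ^ G.depth ≤ 2 ^ max F.depth G.depth :=
      Nat.pow_le_pow_right (by norm_num) (le_max_right _ _)
    omega
  | or F G ihF ihG =>
    simp only [Mf.size, Mf.depth, pow_succ]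
    have h0 : 2 ^ F.depth ≤ 2 ^ max F.depth G.depth :=
      Nat.pow_le_pow_right (by norm_num) (le_max_left _ _)
    have h1 : 2 ^ G.depth ≤ 2 ^ max F.depth G.depth :=
      Nat.pow_le_pow_right (by norm_num) (le_max_right _ _)
    omega

end Pool.Agent.H.MP_027d00_lc.Monot
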