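import Pool.Agent.H.MP_027d00_lc.Amp
import Pool.Agent.H.MP_027d00_lc.mono.Comp

/-!
# Amplification of randomised monotone formulas
-/

set_option autoImplicit false

open Finset

namespace Pool.Agent.H.MP_027d00_lc.Monot

/-- `A` is a convex combination of functions of formula size at most `s`. -/
def MRnd {V : Type} (s : ℕ) (A : (V → Bool) → ℝ) : Prop :=
  ∃ (ι : Type) (_ : Fintype ι) (p : ι → ℝ) (f : ι → (V → Bool) → Bool),
    (∀ i, 0 ≤ p i) ∧ ∑ i, p i = 1 ∧ (∀ i, MComp s (f i)) ∧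
      ∀ x, A x = ∑ i, p i * ind (f i x)

theorem MRnd.mem {V : Type} {s : ℕ} {A : (V → Bool) → ℝ} (h : MRnd s A) (x : V → Bool) :
    0 ≤ A x ∧ A x ≤ 1 := by
  obtain ⟨ι, _, p, f, hp, hs, hf, hA⟩ := h
  rw [hA x]
  constructor
  · exact Finset.sum_nonneg fun i _ => mul_nonneg (hp i) (ind_nonneg _)
  · rw [← hs]
    exact Finset.sum_le_sum fun i _ => by
      have := mul_le_mul_of_nonneg_left (ind_le_one (f i x)) (hp i)
      simpa using this

theorem MRnd.mono {V : Type} {s t : ℕ} (hst : s ≤ t) {A : (V → Bool) → ℝ} (h : MRnd s A) :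
    MRnd t A := by
  obtain ⟨ι, _, p, f, hp, hs, hf, hA⟩ := h
  exact ⟨ι, inferInstance, p, f, hp, hs, fun i => (hf i).mono hst, hA⟩

theorem MRnd.maj {V : Type} {s : ℕ} {A : (V → Bool) → ℝ} (h : MRnd s A) :
    MRnd (5 * s) (fun x => MP_027d00_lc.maj (A x)) := by
  obtain ⟨ι, _, p, f, hp, hs, hf, hA⟩ := h
  refine ⟨ι × ι × ι, inferInstance, fun i => p i.1 * (p i.2.1 * p i.2.2),
    fun i x => (f i.1 x && f i.2.1 x) || (f i.2.2 x && (f i.1 x || f i.2.1 x)), ?_, ?_, ?_, ?_⟩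
  · rintro ⟨i, j, k⟩
    exact mul_nonneg (hp i) (mul_nonneg (hp j) (hp k))
  · rw [Fintype.sum_prod_type]
    have h1 : ∀ i : ι, ∑ y : ι × ι, p i * (p y.1 * p y.2) = p i := by
      intro i
      rw [← Finset.mul_sum, Fintype.sum_prod_type]
      have h2 : ∀ j : ι, ∑ k : ι, p j * p k = p j := by
        intro j
        rw [← Finset.mul_sum, hs, mul_one]
      rw [Finset.sum_congr rfl (fun j _ => h2 j), hs, mul_one]
    rw [Finset.sum_congr rfl (fun i _ => h1 i), hs]
  · rintro ⟨i, j, k⟩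
    have h1 : MComp (s + s) (fun x => f i x && f j x) := (hf i).and (hf j)
    have h2 : MComp (s + (s + s)) (fun x => f k x && (f i x || f j x)) :=
      (hf k).and ((hf i).or (hf j))
    exact (h1.or h2).mono (by omega)
  · intro x
    have e1 : ∀ i j k : ι, p i * (p j * p k) *
        ind ((f i x && f j x) || (f k x && (f i x || f j x))) =
        (p i * ind (f i x)) * ((p j * ind (f j x)) * p k) +
        p i * ((p j * ind (f j x)) * (p k * ind (f k x))) +
        (p i * ind (f i x)) * (p j * (p k * ind (f k x))) -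
        2 * ((p i * ind (f i x)) * ((p j * ind (f j x)) * (p k * ind (f k x)))) := by
      intro i j k
      rw [ind_maj]
      ring
    simp only [MP_027d00_lc.maj]
    rw [Fintype.sum_prod_type]
    have e2 : ∀ i : ι, ∑ y : ι × ι, p i * (p y.1 * p y.2) *
        ind ((f i x && f y.1 x) || (f y.2 x && (f i x || f y.1 x))) =
        (p i * ind (f i x)) * (A x * 1) + p i * (A x * A x) + (p i * ind (f i x)) * (1 * A x) -
        2 * ((p i * ind (f i x)) * (A x * A x)) := by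
      intro i
      rw [Fintype.sum_prod_type]
      have e3 : ∀ j : ι, ∑ k : ι, p i * (p j * p k) *
          ind ((f i x && f j x) || (f k x && (f i x || f j x))) =
          (p i * ind (f i x)) * ((p j * ind (f j x)) * 1) +
          p i * ((p j * ind (f j x)) * A x) +
          (p i * ind (f i x)) * (p j * A x) -
          2 * ((p i * ind (f i x)) * ((p j * ind (f j x)) * A x)) := by
        intro j
        rw [Finset.sum_congr rfl (fun k _ => e1 i j k), Finset.sum_sub_distrib,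
          Finset.sum_add_distrib, Finset.sum_add_distrib, ← Finset.mul_sum, ← Finset.mul_sum,
          ← Finset.mul_sum, ← Finset.mul_sum, ← Finset.mul_sum, ← Finset.mul_sum, ← Finset.mul_sum,
          ← Finset.mul_sum, ← Finset.mul_sum, hs, ← hA x]
      rw [Finset.sum_congr rfl (fun j _ => e3 j), Finset.sum_sub_distrib,
          Finset.sum_add_distrib, Finset.sum_add_distrib, ← Finset.mul_sum, ← Finset.mul_sum,
          ← Finset.mul_sum, ← Finset.mul_sum, ← Finset.mul_sum, ← Finset.sum_mul, ← Finset.sum_mul,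
          ← Finset.sum_mul, hs, ← hA x]
    rw [Finset.sum_congr rfl (fun i _ => e2 i), Finset.sum_sub_distrib,
          Finset.sum_add_distrib, Finset.sum_add_distrib, ← Finset.sum_mul, ← Finset.sum_mul,
          ← Finset.sum_mul, ← Finset.mul_sum, ← Finset.sum_mul, hs, ← hA x]
    ring

theorem MRnd.maj_iter {V : Type} {s : ℕ} {A : (V → Bool) → ℝ} (h : MRnd s A) (k : ℕ) :
    MRnd (5 ^ k * s) (fun x => MP_027d00_lc.maj^[k] (A x)) := by
  induction k with
  | zero => simpa using h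
  | succ k ih =>
    have := ih.maj
    have e : (fun x => MP_027d00_lc.maj^[k + 1] (A x)) =
        fun x => MP_027d00_lc.maj (MP_027d00_lc.maj^[k] (A x)) := by
      funext x
      rw [Function.iterate_succ_apply']
    rw [e]
    exact this.mono (by rw [pow_succ]; apply le_of_eq; ring)

theorem ind_or (a b : Bool) : ind (a || b) = ind a + ind b - ind a * ind b := by
  cases a <;> cases b <;> simp [ind]

theorem MRnd.or {V : Type} {s t : ℕ} {A B : (V → Bool) → ℝ} (h : MRnd s A) (h' : MRnd t B) :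
    MRnd (s + t) (fun x => 1 - (1 - A x) * (1 - B x)) := by
  obtain ⟨ι, _, p, f, hp, hs, hf, hA⟩ := h
  obtain ⟨ι', _, p', f', hp', hs', hf', hB⟩ := h'
  refine ⟨ι × ι', inferInstance, fun i => p i.1 * p' i.2, fun i x => f i.1 x || f' i.2 x,
    ?_, ?_, ?_, ?_⟩
  · rintro ⟨i, j⟩
    exact mul_nonneg (hp i) (hp' j)
  · rw [Fintype.sum_prod_type]
    have h1 : ∀ i : ι, ∑ j : ι', p i * p' j = p i := by
      intro i
      rw [← Finset.mul_sum, hs', mul_one]
    rw [Finset.sum_congr rfl (fun i _ => h1 i), hs]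
  · rintro ⟨i, j⟩
    exact (hf i).or (hf' j)
  · intro x
    rw [Fintype.sum_prod_type]
    have h1 : ∀ i : ι, ∑ j : ι', p i * p' j * ind (f i x || f' j x) =
        p i * ind (f i x) * 1 + p i * B x - p i * ind (f i x) * B x := by
      intro i
      have h2 : ∀ j : ι', p i * p' j * ind (f i x || f' j x) =
          p i * ind (f i x) * p' j + p i * (p' j * ind (f' j x)) -
            p i * ind (f i x) * (p' j * ind (f' j x)) := by
        intro j
        rw [ind_or]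
        ring
      rw [Finset.sum_congr rfl (fun j _ => h2 j), Finset.sum_sub_distrib,
        Finset.sum_add_distrib, ← Finset.mul_sum, ← Finset.mul_sum, ← Finset.mul_sum, hs', ← hB x]
    rw [Finset.sum_congr rfl (fun i _ => h1 i), Finset.sum_sub_distrib, Finset.sum_add_distrib,
      ← Finset.sum_mul, ← Finset.sum_mul, ← Finset.sum_mul, hs, ← hA x]
    ring

theorem MRnd.orPow {V : Type} {s : ℕ} {A : (V → Bool) → ℝ} (h : MRnd s A) (t : ℕ) :
    MRnd (t * s) (fun x => 1 - (1 - A x) ^ t) := by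
  induction t with
  | zero =>
    refine ⟨Unit, inferInstance, fun _ => 1, fun _ _ => false, fun _ => by norm_num, by simp,
      fun _ => MComp.const _ false, fun x => by simp [ind]⟩
  | succ t ih =>
    have h1 := ih.or h
    have e : (fun x => 1 - (1 - A x) ^ (t + 1)) =
        fun x => 1 - (1 - (1 - (1 - A x) ^ t)) * (1 - A x) := by
      funext x
      rw [pow_succ]
      ring
    rw [e]
    exact h1.mono (by rw [add_mul, one_mul])

theorem MRnd.mix {V : Type} {s : ℕ} {A : (V → Bool) → ℝ} (h : MRnd s A) (b : Bool) {t : ℝ}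
    (ht0 : 0 ≤ t) (ht1 : t ≤ 1) : MRnd s (fun x => t * A x + (1 - t) * ind b) := by
  obtain ⟨ι, _, p, f, hp, hs, hf, hA⟩ := h
  refine ⟨Option ι, inferInstance, fun i => i.elim (1 - t) (fun i => t * p i),
    fun i => i.elim (fun _ => b) f, ?_, ?_, ?_, ?_⟩
  · intro i
    cases i with
    | none => simpa using ht1
    | some i => exact mul_nonneg ht0 (hp i)
  · rw [Fintype.sum_option]
    simp only [Option.elim]
    rw [← Finset.mul_sum, hs]
    ring
  · intro i
    cases i with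
    | none => exact MComp.const s b
    | some i => exact hf i
  · intro x
    rw [Fintype.sum_option]
    simp only [Option.elim]
    rw [hA x, Finset.mul_sum]
    have : ∀ i, t * p i * ind (f i x) = t * (p i * ind (f i x)) := fun i => by ring
    rw [Finset.sum_congr rfl (fun i _ => this i)]
    ring

theorem MRnd.derand {V : Type} [Fintype V] [DecidableEq V] {s : ℕ} {A : (V → Bool) → ℝ}
    (h : MRnd s A) (g : (V → Bool) → Bool)
    (herr : ∑ x, (if g x = true then 1 - A x else A x) < 1) : MComp s g := by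
  obtain ⟨ι, _, p, f, hp, hs, hf, hA⟩ := h
  by_contra hcon
  have h0 : ∀ i, f i ≠ g := by
    intro i hi
    exact hcon (hi ▸ hf i)
  have h1 : ∀ i, 1 ≤ ∑ x, (if g x = true then 1 - ind (f i x) else ind (f i x)) := by
    intro i
    obtain ⟨x, hx⟩ := Function.ne_iff.1 (h0 i)
    have hterm : ∀ x, 0 ≤ (if g x = true then 1 - ind (f i x) else ind (f i x)) := by
      intro x
      have h1 := ind_le_one (f i x)
      have h2 := ind_nonneg (f i x)
      split_ifs <;> linarith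
    refine le_trans ?_ (Finset.single_le_sum (fun k _ => hterm k) (Finset.mem_univ x))
    cases hg : g x <;> cases hf' : f i x <;> simp_all [ind]
  have h2 : (1 : ℝ) ≤ ∑ x, (if g x = true then 1 - A x else A x) := by
    calc (1 : ℝ) = ∑ i, p i * 1 := by simp [hs]
      _ ≤ ∑ i, p i * ∑ x, (if g x = true then 1 - ind (f i x) else ind (f i x)) :=
        Finset.sum_le_sum (fun i _ => mul_le_mul_of_nonneg_left (h1 i) (hp i))
      _ = ∑ x, ∑ i, p i * (if g x = true then 1 - ind (f i x) else ind (f i x)) := by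
        rw [Finset.sum_comm]
        refine Finset.sum_congr rfl fun i _ => ?_
        rw [Finset.mul_sum]
      _ = ∑ x, (if g x = true then 1 - A x else A x) := by
        refine Finset.sum_congr rfl fun x _ => ?_
        split_ifs with hg
        · have : ∀ i, p i * (1 - ind (f i x)) = p i - p i * ind (f i x) := fun i => by ring
          rw [Finset.sum_congr rfl (fun i _ => this i), Finset.sum_sub_distrib, hs, ← hA]
        · rw [← hA]
  linarith

/-- Exponent bookkeeping: there are few iterations. -/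
theorem exists_j (m : ℕ) (hm : 1 ≤ m) : ∃ j : ℕ, 72 * m ≤ 4 ^ j ∧ 5 ^ (5 * j) ≤ (288 * m) ^ 6 := by
  have hex : ∃ j : ℕ, 72 * m ≤ 4 ^ j := ⟨72 * m, (Nat.lt_pow_self (by norm_num)).le⟩
  classical
  refine ⟨Nat.find hex, Nat.find_spec hex, ?_⟩
  have h1 : 4 ^ Nat.find hex ≤ 288 * m := by
    rcases Nat.eq_zero_or_pos (Nat.find hex) with h | h
    · rw [h]; simp; omega
    · obtain ⟨k, hk⟩ : ∃ k, Nat.find hex = k + 1 := ⟨Nat.find hex - 1, by omega⟩
      have := Nat.find_min hex (m := k) (by omega)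
      rw [hk, pow_succ]
      omega
  calc 5 ^ (5 * Nat.find hex) = (5 ^ 5) ^ Nat.find hex := by rw [pow_mul]
    _ ≤ (4 ^ 6) ^ Nat.find hex := Nat.pow_le_pow_left (by norm_num) _
    _ = (4 ^ Nat.find hex) ^ 6 := by rw [← pow_mul, ← pow_mul, mul_comm]
    _ ≤ (288 * m) ^ 6 := Nat.pow_le_pow_left h1 6

theorem exists_k (n : ℕ) (hn : 1 ≤ n) : ∃ k : ℕ, 3 * n ≤ 2 ^ k ∧ 5 ^ k ≤ (6 * n) ^ 3 := by
  have hex : ∃ j : ℕ, 3 * n ≤ 2 ^ j := ⟨3 * n, (Nat.lt_pow_self (by norm_num)).le⟩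
  classical
  refine ⟨Nat.find hex, Nat.find_spec hex, ?_⟩
  have h1 : 2 ^ Nat.find hex ≤ 6 * n := by
    rcases Nat.eq_zero_or_pos (Nat.find hex) with h | h
    · rw [h]; simp; omega
    · obtain ⟨k, hk⟩ : ∃ k, Nat.find hex = k + 1 := ⟨Nat.find hex - 1, by omega⟩
      have := Nat.find_min hex (m := k) (by omega)
      rw [hk, pow_succ]
      omega
  calc 5 ^ (Nat.find hex) ≤ (2 ^ 3) ^ Nat.find hex := Nat.pow_le_pow_left (by norm_num) _
    _ = (2 ^ Nat.find hex) ^ 3 := by rw [← pow_mul, ← pow_mul, mul_comm]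
    _ ≤ (6 * n) ^ 3 := Nat.pow_le_pow_left h1 3

/-- Amplification from the advantage `1/(288 m)` around `1/2`. -/
theorem MRnd.boost {n m s : ℕ} (hn : 1 ≤ n) (hm : 1 ≤ m) {A : (Fin n → Bool) → ℝ} (h : MRnd s A)
    (g : (Fin n → Bool) → Bool)
    (h1 : ∀ x, g x = true → 1 / 2 + 1 / (288 * (m : ℝ)) ≤ A x)
    (h0 : ∀ x, g x = false → A x ≤ 1 / 2 - 1 / (288 * (m : ℝ))) :
    MComp (288 ^ 6 * 216 * (m ^ 6 * n ^ 3 * s)) g := by
  obtain ⟨j, hj, hj'⟩ := exists_j m hm
  obtain ⟨k, hk, hk'⟩ := exists_k n hn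
  have hB := (h.maj_iter (5 * j)).maj_iter k
  have hmR : (1 : ℝ) ≤ m := by exact_mod_cast hm
  have hδ : (0 : ℝ) ≤ 1 / (288 * (m : ℝ)) := by positivity
  -- the error of a value at least 1/2 + δ
  have key : ∀ p : ℝ, 1 / 2 + 1 / (288 * (m : ℝ)) ≤ p → p ≤ 1 →
      3 * (1 - MP_027d00_lc.maj^[k] (MP_027d00_lc.maj^[5 * j] p)) ≤ (1 / 2) ^ n := by
    intro p hp hp1
    have g1 := maj_iter_grow hδ hp hp1 (5 * j)
    have g2 : (1 : ℝ) / 4 ≤ (11 / 8) ^ (5 * j) * (1 / (288 * (m : ℝ))) := by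
      have e1 : ((4 : ℝ)) ^ j ≤ (11 / 8) ^ (5 * j) := by
        rw [pow_mul]
        exact pow_le_pow_left₀ (by norm_num) (by norm_num) j
      have e2 : (72 * m : ℝ) ≤ 4 ^ j := by exact_mod_cast hj
      have e3 : (72 * m : ℝ) ≤ (11 / 8) ^ (5 * j) := e2.trans e1
      calc (1 : ℝ) / 4 = (72 * m) * (1 / (288 * (m : ℝ))) := by field_simp; norm_num
        _ ≤ (11 / 8) ^ (5 * j) * (1 / (288 * (m : ℝ))) := mul_le_mul_of_nonneg_right e3 hδ
    rw [min_eq_right g2] at g1
    have hmem := maj_iter_mem (p := p) (by linarith) hp1 (5 * j)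
    have g3 := maj_iter_fast (p := MP_027d00_lc.maj^[5 * j] p) (by linarith) hmem.2 k
    refine g3.trans ?_
    calc ((3 : ℝ) / 4) ^ (2 ^ k) ≤ (3 / 4) ^ (3 * n) :=
          pow_le_pow_of_le_one (by norm_num) (by norm_num) hk
      _ = ((3 / 4) ^ 3) ^ n := by rw [pow_mul]
      _ ≤ (1 / 2) ^ n := pow_le_pow_left₀ (by norm_num) (by norm_num) n
  have herr : ∑ x, (if g x = true then 1 - MP_027d00_lc.maj^[k] (MP_027d00_lc.maj^[5 * j] (A x))
      else MP_027d00_lc.maj^[k] (MP_027d00_lc.maj^[5 * j] (A x))) < 1 := by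
    have hx : ∀ x, (if g x = true then 1 - MP_027d00_lc.maj^[k] (MP_027d00_lc.maj^[5 * j] (A x))
      else MP_027d00_lc.maj^[k] (MP_027d00_lc.maj^[5 * j] (A x))) ≤ (1 / 3) * (1 / 2) ^ n := by
      intro x
      split_ifs with hg
      · have := key (A x) (h1 x hg) (h.mem x).2
        linarith
      · have hg' : g x = false := by simpa using hg
        have := key (1 - A x) (by linarith [h0 x hg']) (by linarith [(h.mem x).1])
        rw [maj_iter_compl, maj_iter_compl] at this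
        linarith
    calc ∑ x, (if g x = true then 1 - MP_027d00_lc.maj^[k] (MP_027d00_lc.maj^[5 * j] (A x))
      else MP_027d00_lc.maj^[k] (MP_027d00_lc.maj^[5 * j] (A x)))
        ≤ ∑ _x : Fin n → Bool, (1 / 3) * (1 / 2 : ℝ) ^ n := Finset.sum_le_sum fun x _ => hx x
      _ = 1 / 3 := by
        rw [Finset.sum_const, Finset.card_univ, Fintype.card_fun, Fintype.card_bool,
          Fintype.card_fin, nsmul_eq_mul]
        push_cast
        rw [mul_left_comm, ← mul_pow]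
        norm_num
      _ < 1 := by norm_num
  refine (hB.derand g herr).mono ?_
  calc 5 ^ k * (5 ^ (5 * j) * s) ≤ (6 * n) ^ 3 * ((288 * m) ^ 6 * s) :=
        Nat.mul_le_mul hk' (Nat.mul_le_mul_right _ hj')
    _ = 288 ^ 6 * 216 * (m ^ 6 * n ^ 3 * s) := by ring

/-- The gap after taking the OR of `t` copies. -/
theorem gap_or {m : ℕ} (hm : 1 ≤ m) {θ₀ θ₁ τ : ℝ} (hτ : 0 < τ) (hτ1 : τ ≤ 1) (h0 : 0 ≤ θ₀)
    (h1 : θ₁ ≤ 1) (h : (1 + 1 / (8 * (m : ℝ))) * θ₀ + τ ≤ θ₁) :
    ∃ t : ℕ, (t : ℝ) * τ ≤ 1 ∧ 1 / (72 * (m : ℝ)) ≤ (1 - θ₀) ^ t - (1 - θ₁) ^ t := by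
  have hmR : (1 : ℝ) ≤ m := by exact_mod_cast hm
  have hm0 : (0 : ℝ) < m := by linarith
  have hpos : 0 < θ₁ := by
    have : 0 ≤ (1 + 1 / (8 * (m : ℝ))) * θ₀ := by positivity
    linarith
  have hτθ : τ ≤ θ₁ := by
    have : 0 ≤ (1 + 1 / (8 * (m : ℝ))) * θ₀ := by positivity
    linarith
  -- θ₁ - θ₀ ≥ θ₁ / (9m)
  have hgap : θ₁ * (1 / (9 * (m : ℝ))) ≤ θ₁ - θ₀ := by
    have h2 : (1 + 1 / (8 * (m : ℝ))) * θ₀ ≤ θ₁ := by linarith
    have h3 : θ₀ * (1 / (8 * (m : ℝ))) ≤ θ₁ - θ₀ := by linarith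
    -- multiply: θ₁ ≤ (θ₁ - θ₀)(8m+1)
    have h4 : θ₀ ≤ (θ₁ - θ₀) * (8 * m) := by
      have := mul_le_mul_of_nonneg_right h3 (by positivity : (0 : ℝ) ≤ 8 * m)
      have e : θ₀ * (1 / (8 * (m : ℝ))) * (8 * m) = θ₀ := by field_simp
      rwa [e] at this
    have h5 : 0 ≤ θ₁ - θ₀ := by
      have : 0 ≤ θ₀ * (1 / (8 * (m : ℝ))) := by positivity
      linarith
    have h6 : θ₁ ≤ (θ₁ - θ₀) * (9 * m) := by nlinarith
    calc θ₁ * (1 / (9 * (m : ℝ))) ≤ (θ₁ - θ₀) * (9 * m) * (1 / (9 * (m : ℝ))) :=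
          mul_le_mul_of_nonneg_right h6 (by positivity)
      _ = θ₁ - θ₀ := by field_simp
  have hle : θ₀ ≤ θ₁ := by
    have : 0 ≤ θ₁ * (1 / (9 * (m : ℝ))) := by positivity
    linarith
  by_cases hbig : 1 / 2 < θ₁
  · refine ⟨1, by simpa using hτ1, ?_⟩
    rw [pow_one, pow_one]
    have : 1 / 2 * (1 / (9 * (m : ℝ))) ≤ θ₁ * (1 / (9 * (m : ℝ))) :=
      mul_le_mul_of_nonneg_right hbig.le (by positivity)
    have e : 1 / (72 * (m : ℝ)) ≤ 1 / 2 * (1 / (9 * (m : ℝ))) := by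
      rw [show (1 : ℝ) / 2 * (1 / (9 * (m : ℝ))) = 1 / (18 * m) by field_simp; norm_num]
      apply one_div_le_one_div_of_le (by positivity)
      linarith
    linarith
  · push Not at hbig
    set t : ℕ := ⌊1 / (2 * θ₁)⌋₊ with ht
    have hq1 : 1 ≤ 1 / (2 * θ₁) := by
      rw [le_div_iff₀ (by positivity)]
      linarith
    have ht1 : 1 ≤ t := Nat.le_floor (by simpa using hq1)
    have htle : (t : ℝ) ≤ 1 / (2 * θ₁) := Nat.floor_le (by positivity)
    have htlt : 1 / (2 * θ₁) < (t : ℝ) + 1 := Nat.lt_floor_add_one _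
    have htθ : (t : ℝ) * θ₁ ≤ 1 / 2 := by
      calc (t : ℝ) * θ₁ ≤ 1 / (2 * θ₁) * θ₁ := mul_le_mul_of_nonneg_right htle hpos.le
        _ = 1 / 2 := by field_simp
    have htθ' : 1 / 4 ≤ (t : ℝ) * θ₁ := by
      have h2 : 1 / 2 < ((t : ℝ) + 1) * θ₁ := by
        calc (1 : ℝ) / 2 = 1 / (2 * θ₁) * θ₁ := by field_simp
          _ < ((t : ℝ) + 1) * θ₁ := mul_lt_mul_of_pos_right htlt hpos
      have h3 : (1 : ℝ) ≤ t := by exact_mod_cast ht1
      have h4 : θ₁ ≤ t * θ₁ := by nlinarith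
      linarith
    refine ⟨t, ?_, ?_⟩
    · calc (t : ℝ) * τ ≤ t * θ₁ := mul_le_mul_of_nonneg_left hτθ (by positivity)
        _ ≤ 1 := by linarith
    · obtain ⟨r, hr⟩ : ∃ r, t = r + 1 := ⟨t - 1, by omega⟩
      -- a^(r+1) - b^(r+1) ≥ (r+1) (a-b) b^r
      have hb0 : 0 ≤ 1 - θ₁ := by linarith
      have hab : 1 - θ₁ ≤ 1 - θ₀ := by linarith
      have hmv : ∀ r : ℕ, ((r : ℝ) + 1) * (θ₁ - θ₀) * (1 - θ₁) ^ r ≤
          (1 - θ₀) ^ (r + 1) - (1 - θ₁) ^ (r + 1) := by
        intro r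
        induction r with
        | zero => simp
        | succ r ih =>
          have e1 : (1 - θ₁) ^ (r + 1) ≤ (1 - θ₀) ^ (r + 1) :=
            pow_le_pow_left₀ hb0 hab _
          have e2 : (1 - θ₀) ^ (r + 1 + 1) - (1 - θ₁) ^ (r + 1 + 1) =
              (θ₁ - θ₀) * (1 - θ₀) ^ (r + 1) +
                (1 - θ₁) * ((1 - θ₀) ^ (r + 1) - (1 - θ₁) ^ (r + 1)) := by ring
          have e3 : (θ₁ - θ₀) * (1 - θ₁) ^ (r + 1) ≤ (θ₁ - θ₀) * (1 - θ₀) ^ (r + 1) :=
            mul_le_mul_of_nonneg_left e1 (by linarith)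
          have e4 : (1 - θ₁) * (((r : ℝ) + 1) * (θ₁ - θ₀) * (1 - θ₁) ^ r) ≤
              (1 - θ₁) * ((1 - θ₀) ^ (r + 1) - (1 - θ₁) ^ (r + 1)) :=
            mul_le_mul_of_nonneg_left ih hb0
          rw [e2]
          push_cast
          have e5 : (1 - θ₁) * (((r : ℝ) + 1) * (θ₁ - θ₀) * (1 - θ₁) ^ r) =
              ((r : ℝ) + 1) * (θ₁ - θ₀) * (1 - θ₁) ^ (r + 1) := by rw [pow_succ]; ring
          rw [e5] at e4
          nlinarith
      have hbern : 1 - (r : ℝ) * θ₁ ≤ (1 - θ₁) ^ r := by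
        have := one_add_mul_le_pow (a := -θ₁) (by linarith) r
        calc 1 - (r : ℝ) * θ₁ = 1 + r * (-θ₁) := by ring
          _ ≤ (1 + -θ₁) ^ r := this
          _ = (1 - θ₁) ^ r := by ring
      have hr0 : (r : ℝ) * θ₁ ≤ 1 / 2 := by
        have : (r : ℝ) ≤ t := by rw [hr]; push_cast; linarith
        nlinarith
      have hhalf : 1 / 2 ≤ (1 - θ₁) ^ r := by linarith
      have h7 := hmv r
      rw [← hr] at h7
      have hrt : (r : ℝ) + 1 = t := by rw [hr]; push_cast; ring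
      rw [hrt] at h7
      refine le_trans ?_ h7
      have h8 : 0 ≤ (t : ℝ) * (θ₁ - θ₀) := mul_nonneg (by positivity) (by linarith)
      have h9 : (t : ℝ) * (θ₁ * (1 / (9 * (m : ℝ)))) ≤ (t : ℝ) * (θ₁ - θ₀) :=
        mul_le_mul_of_nonneg_left hgap (by positivity)
      have h10 : 1 / 4 * (1 / (9 * (m : ℝ))) ≤ (t : ℝ) * (θ₁ * (1 / (9 * (m : ℝ)))) := by
        rw [← mul_assoc]
        exact mul_le_mul_of_nonneg_right htθ' (by positivity)
      calc 1 / (72 * (m : ℝ)) = 1 / 4 * (1 / (9 * (m : ℝ))) * (1 / 2) := by field_simp; norm_num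
        _ ≤ (t : ℝ) * (θ₁ - θ₀) * (1 / 2) :=
          mul_le_mul_of_nonneg_right (h10.trans h9) (by norm_num)
        _ ≤ (t : ℝ) * (θ₁ - θ₀) * (1 - θ₁) ^ r := mul_le_mul_of_nonneg_left hhalf h8

/-- Amplification of the multiplicative advantage `1 + 1/(8m)`. -/
theorem MRnd.amplify {n m s : ℕ} (hm : 1 ≤ m) {A : (Fin n → Bool) → ℝ} (h : MRnd s A)
    (g : (Fin n → Bool) → Bool) (hg1 : ∃ x, g x = true) (hg0 : ∃ x, g x = false)
    {τ : ℝ} (hτ : 0 < τ) (hτ1 : τ ≤ 1)
    (hA : ∀ x y, g x = true → g y = false → (1 + 1 / (8 * (m : ℝ))) * A y + τ ≤ A x) :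
    ∃ t : ℕ, (t : ℝ) * τ ≤ 1 ∧ MComp (288 ^ 6 * 216 * (m ^ 6 * n ^ 3 * (t * s))) g := by
  have hmR : (1 : ℝ) ≤ m := by exact_mod_cast hm
  have hm0 : (0 : ℝ) < m := by linarith
  have hn : 1 ≤ n := by
    rcases Nat.eq_zero_or_pos n with h | h
    · exfalso
      subst h
      obtain ⟨x, hx⟩ := hg1
      obtain ⟨y, hy⟩ := hg0
      have : x = y := funext fun i => i.elim0
      rw [this, hy] at hx
      exact absurd hx (by simp)
    · exact h
  obtain ⟨x₁, hx₁, hmin⟩ := Finset.exists_min_image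
    (Finset.univ.filter (fun x : Fin n → Bool => g x = true)) A
    (by obtain ⟨x, hx⟩ := hg1; exact ⟨x, by simp [hx]⟩)
  obtain ⟨x₀, hx₀, hmax⟩ := Finset.exists_max_image
    (Finset.univ.filter (fun x : Fin n → Bool => g x = false)) A
    (by obtain ⟨x, hx⟩ := hg0; exact ⟨x, by simp [hx]⟩)
  simp only [Finset.mem_filter, Finset.mem_univ, true_and] at hx₁ hx₀ hmin hmax
  obtain ⟨t, ht, hgap⟩ := gap_or hm hτ hτ1 (h.mem x₀).1 (h.mem x₁).2 (hA x₁ x₀ hx₁ hx₀)
  refine ⟨t, ht, ?_⟩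
  have hB := h.orPow t
  set b₁ : ℝ := 1 - (1 - A x₁) ^ t with hb₁
  set b₀ : ℝ := 1 - (1 - A x₀) ^ t with hb₀
  have hb₁1 : b₁ ≤ 1 := (hB.mem x₁).2
  have hb₀0 : 0 ≤ b₀ := (hB.mem x₀).1
  have hgap' : 1 / (72 * (m : ℝ)) ≤ b₁ - b₀ := by rw [hb₁, hb₀]; linarith
  have hB1 : ∀ x, g x = true → b₁ ≤ 1 - (1 - A x) ^ t := by
    intro x hx
    have h1 : (1 - A x) ^ t ≤ (1 - A x₁) ^ t :=
      pow_le_pow_left₀ (by linarith [(h.mem x).2]) (by linarith [hmin x hx]) t
    rw [hb₁]; linarith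
  have hB0 : ∀ x, g x = false → 1 - (1 - A x) ^ t ≤ b₀ := by
    intro x hx
    have h1 : (1 - A x₀) ^ t ≤ (1 - A x) ^ t :=
      pow_le_pow_left₀ (by linarith [(h.mem x₀).2]) (by linarith [hmax x hx]) t
    rw [hb₀]; linarith
  have hγ : (0 : ℝ) < 1 / (72 * (m : ℝ)) := by positivity
  have e288 : 1 / (288 * (m : ℝ)) = 1 / 4 * (1 / (72 * (m : ℝ))) := by field_simp; norm_num
  set c : ℝ := (b₀ + b₁) / 2 with hc
  by_cases hc2 : c ≤ 1 / 2
  · -- mix with the constant 1
    set l : ℝ := 1 / (2 * (1 - c)) with hl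
    have h1c : (1 : ℝ) / 2 ≤ 1 - c := by linarith
    have hl1 : l ≤ 1 := by
      rw [hl, div_le_one (by linarith)]; linarith
    have hlc : l * (1 - c) = 1 / 2 := by rw [hl]; field_simp
    have hl2 : 1 / 2 ≤ l := by
      have hc0 : 1 - c ≤ 1 := by rw [hc]; linarith
      rw [hl]
      apply one_div_le_one_div_of_le (by linarith) (by linarith)
    have hM := hB.mix true (t := l) (by linarith) hl1
    refine MRnd.boost hn hm hM g ?_ ?_
    · intro x hx
      rw [ind_true, e288]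
      have h1 := hB1 x hx
      have h2 : l * b₁ ≤ l * (1 - (1 - A x) ^ t) := mul_le_mul_of_nonneg_left h1 (by linarith)
      have h3 : 1 / 4 * (1 / (72 * (m : ℝ))) ≤ l * (b₁ - c) := by
        have : 1 / 2 * (1 / (72 * (m : ℝ))) ≤ b₁ - c := by rw [hc]; linarith
        nlinarith
      nlinarith
    · intro x hx
      rw [ind_true, e288]
      have h1 := hB0 x hx
      have h2 : l * (1 - (1 - A x) ^ t) ≤ l * b₀ := mul_le_mul_of_nonneg_left h1 (by linarith)
      have h3 : 1 / 4 * (1 / (72 * (m : ℝ))) ≤ l * (c - b₀) := by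
        have : 1 / 2 * (1 / (72 * (m : ℝ))) ≤ c - b₀ := by rw [hc]; linarith
        nlinarith
      nlinarith
  · -- mix with the constant 0
    push Not at hc2
    set l : ℝ := 1 / (2 * c) with hl
    have hl1 : l ≤ 1 := by
      rw [hl, div_le_one (by linarith)]; linarith
    have hlc : l * c = 1 / 2 := by rw [hl]; field_simp
    have hl2 : 1 / 2 ≤ l := by
      have hc0 : c ≤ 1 := by rw [hc]; linarith
      rw [hl]
      apply one_div_le_one_div_of_le (by linarith) (by linarith)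
    have hM := hB.mix false (t := l) (by linarith) hl1
    refine MRnd.boost hn hm hM g ?_ ?_
    · intro x hx
      rw [ind_false, e288]
      have h1 := hB1 x hx
      have h2 : l * b₁ ≤ l * (1 - (1 - A x) ^ t) := mul_le_mul_of_nonneg_left h1 (by linarith)
      have h3 : 1 / 4 * (1 / (72 * (m : ℝ))) ≤ l * (b₁ - c) := by
        have : 1 / 2 * (1 / (72 * (m : ℝ))) ≤ b₁ - c := by rw [hc]; linarith
        nlinarith
      nlinarith
    · intro x hx
      rw [ind_false, e288]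
      have h1 := hB0 x hx
      have h2 : l * (1 - (1 - A x) ^ t) ≤ l * b₀ := mul_le_mul_of_nonneg_left h1 (by linarith)
      have h3 : 1 / 4 * (1 / (72 * (m : ℝ))) ≤ l * (c - b₀) := by
        have : 1 / 2 * (1 / (72 * (m : ℝ))) ≤ c - b₀ := by rw [hc]; linarith
        nlinarith
      nlinarith

end Pool.Agent.H.MP_027d00_lc.Monot
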