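import Mathlib

/-!
# Monotone formulas and the composition of two Boolean functions
-/

set_option autoImplicit false

namespace Pool.Agent.H.MP_027d00_lc.Monot

/-- Monotone formulas: constants, variables, fan-in two AND and OR. -/
inductive Mf (V : Type) : Type
  | const (b : Bool)
  | var (v : V)
  | and (F G : Mf V)
  | or (F G : Mf V)

/-- The value of a monotone formula. -/
def Mf.eval {V : Type} (x : V → Bool) : Mf V → Bool
  | .const b => b
  | .var v => x v
  | .and F G => F.eval x && G.eval x
  | .or F G => F.eval x || G.eval x

/-- The size of a monotone formula: the number of its leaves labelled by variables. -/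
def Mf.size {V : Type} : Mf V → ℕ
  | .const _ => 0
  | .var _ => 1
  | .and F G => F.size + G.size
  | .or F G => F.size + G.size

/-- The depth of a monotone formula: the length of a longest path from a leaf to the root. -/
def Mf.depth {V : Type} : Mf V → ℕ
  | .const _ => 0
  | .var _ => 0
  | .and F G => max F.depth G.depth + 1
  | .or F G => max F.depth G.depth + 1

/-- The monotone formula size of a Boolean function `h`. -/
noncomputable def msize {V : Type} (h : (V → Bool) → Bool) : ℕ :=
  sInf {s : ℕ | ∃ F : Mf V, F.size = s ∧ ∀ x, F.eval x = h x}

/-- The block composition `f ⋄ g`: `f` is applied to the values of `g` on the rows of `X`. -/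
def comp {m n : ℕ} (f : (Fin m → Bool) → Bool) (g : (Fin n → Bool) → Bool) :
    (Fin m × Fin n → Bool) → Bool :=
  fun X => f (fun i => g (fun j => X (i, j)))

end Pool.Agent.H.MP_027d00_lc.Monot
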