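import Pool.Agent.H.MP_027d00_lc.ucomp.Defs
import Pool.Agent.H.MP_027d00_lc.mono.Comp

/-!
# Decomposition of a monotone formula into small pieces
-/

set_option autoImplicit false

open Finset

namespace Pool.Agent.H.MP_027d00_lc.Monot

open UComp (Mat)

/-- The value of a formula on a matrix. -/
def Mf.at {m n : ℕ} (F : Mf (Fin m × Fin n)) (X : Mat m n) : Bool := F.eval (fun v => X v.1 v.2)

/-- Separation by a monotone formula with at most `c` leaves. -/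
def MSep {m n : ℕ} (c : ℕ) (S T : Finset (Mat m n)) : Prop :=
  S = ∅ ∨ T = ∅ ∨ ∃ F : Mf (Fin m × Fin n), F.size ≤ c ∧
    (∀ X ∈ S, F.at X = true) ∧ ∀ Y ∈ T, F.at Y = false

theorem MSep.mono {m n : ℕ} {c d : ℕ} {S T S' T' : Finset (Mat m n)}
    (hcd : c ≤ d) (hS : S' ⊆ S) (hT : T' ⊆ T) (h : MSep c S T) : MSep d S' T' := by
  rcases h with h | h | ⟨F, hF, h1, h2⟩
  · left; subst h; exact Finset.subset_empty.1 hS
  · right; left; subst h; exact Finset.subset_empty.1 hT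
  · right; right
    exact ⟨F, hF.trans hcd, fun X hX => h1 X (hS hX), fun X hX => h2 X (hT hX)⟩

theorem MSep.union_left {m n : ℕ} {c d : ℕ}
    {S S' T : Finset (Mat m n)} (h : MSep c S T) (h' : MSep d S' T) :
    MSep (c + d) (S ∪ S') T := by
  rcases h with h | h | ⟨F, hF, h1, h2⟩
  · subst h; rw [Finset.empty_union]
    exact h'.mono (by omega) (Finset.Subset.refl _) (Finset.Subset.refl _)
  · exact Or.inr (Or.inl h)
  rcases h' with h | h | ⟨F', hF', h1', h2'⟩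
  · subst h; rw [Finset.union_empty]
    exact Or.inr (Or.inr ⟨F, by omega, h1, h2⟩)
  · exact Or.inr (Or.inl h)
  refine Or.inr (Or.inr ⟨.or F F', by simp only [Mf.size]; omega, ?_, ?_⟩)
  · intro X hX
    rcases Finset.mem_union.1 hX with h | h
    · have := h1 X h
      simp only [Mf.at] at this
      simp [Mf.at, Mf.eval, this]
    · have := h1' X h
      simp only [Mf.at] at this
      simp [Mf.at, Mf.eval, this]
  · intro Y hY
    have e1 := h2 Y hY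
    have e2 := h2' Y hY
    simp only [Mf.at] at e1 e2
    simp [Mf.at, Mf.eval, e1, e2]

theorem MSep.union_right {m n : ℕ} {c d : ℕ}
    {S T T' : Finset (Mat m n)} (h : MSep c S T) (h' : MSep d S T') :
    MSep (c + d) S (T ∪ T') := by
  rcases h with h | h | ⟨F, hF, h1, h2⟩
  · exact Or.inl h
  · subst h; rw [Finset.empty_union]
    exact h'.mono (by omega) (Finset.Subset.refl _) (Finset.Subset.refl _)
  rcases h' with h | h | ⟨F', hF', h1', h2'⟩
  · exact Or.inl h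
  · subst h; rw [Finset.union_empty]
    exact Or.inr (Or.inr ⟨F, by omega, h1, h2⟩)
  refine Or.inr (Or.inr ⟨.and F F', by simp only [Mf.size]; omega, ?_, ?_⟩)
  · intro X hX
    have e1 := h1 X hX
    have e2 := h1' X hX
    simp only [Mf.at] at e1 e2
    simp [Mf.at, Mf.eval, e1, e2]
  · intro Y hY
    rcases Finset.mem_union.1 hY with h | h
    · have := h2 Y h
      simp only [Mf.at] at this
      simp [Mf.at, Mf.eval, this]
    · have := h2' Y h
      simp only [Mf.at] at this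
      simp [Mf.at, Mf.eval, this]

/-- The rectangle `S × T` is split into `N` rectangles with separations of size at most `w`. -/
inductive MDec {m n : ℕ} (w : ℕ) :
    Finset (Mat m n) → Finset (Mat m n) → ℕ → Prop
  | unit {S T : Finset (Mat m n)} (h : MSep w S T) : MDec w S T 1
  | alice {S S₀ S₁ T : Finset (Mat m n)} {N₀ N₁ : ℕ} (hS : S ⊆ S₀ ∪ S₁)
      (h₀ : MDec w S₀ T N₀) (h₁ : MDec w S₁ T N₁) : MDec w S T (N₀ + N₁)
  | bob {S T T₀ T₁ : Finset (Mat m n)} {N₀ N₁ : ℕ} (hT : T ⊆ T₀ ∪ T₁)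
      (h₀ : MDec w S T₀ N₀) (h₁ : MDec w S T₁ N₁) : MDec w S T (N₀ + N₁)

theorem MDec.pos {m n : ℕ} {w : ℕ} {S T : Finset (Mat m n)} {N : ℕ}
    (h : MDec w S T N) : 1 ≤ N := by
  induction h with
  | unit h => exact le_rfl
  | alice hS h₀ h₁ ih₀ ih₁ => omega
  | bob hT h₀ h₁ ih₀ ih₁ => omega

/-- The conclusion of the tree induction for a protocol with `l` leaves. -/
def MSt {m n : ℕ} (w l : ℕ) (S T : Finset (Mat m n)) : Prop :=
  (∃ c, MSep c S T ∧ c ≤ w ∧ c ≤ l) ∨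
  ∃ (c N : ℕ) (S' T' : Finset (Mat m n)), S' ⊆ S ∧ T' ⊆ T ∧ MDec w S' T' N ∧
    MSep c (S \ S') T ∧ MSep c S (T \ T') ∧ c ≤ w ∧ c ≤ l ∧ w * (N + 4) + 6 * c ≤ 6 * l

theorem MSep.self_diff {m n : ℕ} (c : ℕ) (S T : Finset (Mat m n)) :
    MSep c (S \ S) T := Or.inl (Finset.sdiff_self S)

theorem MSep.diff_self {m n : ℕ} (c : ℕ) (S T : Finset (Mat m n)) :
    MSep c S (T \ T) := Or.inr (Or.inl (Finset.sdiff_self T))

/-- Closing an open node. -/
theorem MDec.close {m n : ℕ} {w c N : ℕ} {S T S' T' : Finset (Mat m n)}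
    (hd : MDec w S' T' N) (hcw : c ≤ w) (h1 : MSep c (S \ S') T)
    (h2 : MSep c S (T \ T')) (hS : S' ⊆ S) : MDec w S T (N + 2) := by
  have d1 : MDec w S' T (N + 1) := by
    refine MDec.bob (T₀ := T') (T₁ := T \ T') ?_ hd
      (MDec.unit (h2.mono hcw hS (Finset.Subset.refl _)))
    rw [Finset.union_sdiff_self_eq_union]
    exact Finset.subset_union_right
  have d2 : MDec w S T (N + 1 + 1) := by
    refine MDec.alice (S₀ := S') (S₁ := S \ S') ?_ d1
      (MDec.unit (h1.mono hcw (Finset.Subset.refl _) (Finset.Subset.refl _)))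
    rw [Finset.union_sdiff_self_eq_union]
    exact Finset.subset_union_right
  exact d2

/-- One open and one closed child, at a node of Alice. -/
theorem MSt.alice_mixed {m n : ℕ} {w l₀ l₁ : ℕ}
    {S₀ S₁ T : Finset (Mat m n)} {c N c₁ : ℕ} {S' T' : Finset (Mat m n)}
    (hS : S' ⊆ S₀) (hT : T' ⊆ T) (hd : MDec w S' T' N) (h1 : MSep c (S₀ \ S') T)
    (h2 : MSep c S₀ (T \ T')) (hcw : c ≤ w) (hcl : c ≤ l₀) (hN : w * (N + 4) + 6 * c ≤ 6 * l₀)
    (h' : MSep c₁ S₁ T) (hc₁w : c₁ ≤ w) (hc₁ : c₁ ≤ l₁) : MSt w (l₀ + l₁) (S₀ ∪ S₁) T := by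
  by_cases hw : c + c₁ ≤ w
  · refine Or.inr ⟨c + c₁, N, S', T', hS.trans Finset.subset_union_left, hT, hd, ?_, ?_, hw,
      by omega, by omega⟩
    · refine (h1.union_left h').mono le_rfl ?_ (Finset.Subset.refl _)
      intro X hX
      simp only [Finset.mem_sdiff, Finset.mem_union] at hX ⊢
      tauto
    · exact h2.union_left (h'.mono le_rfl (Finset.Subset.refl _) Finset.sdiff_subset)
  · refine Or.inr ⟨0, N + 2 + 1, S₀ ∪ S₁, T, Finset.Subset.refl _, Finset.Subset.refl _,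
      MDec.alice (Finset.Subset.refl _) (hd.close hcw h1 h2 hS)
        (MDec.unit (h'.mono hc₁w (Finset.Subset.refl _) (Finset.Subset.refl _))),
      MSep.self_diff _ _ _, MSep.diff_self _ _ _, Nat.zero_le _, Nat.zero_le _, ?_⟩
    have e : w * (N + 2 + 1 + 4) = w * (N + 4) + 3 * w := by ring
    omega

/-- One open and one closed child, at a node of Bob. -/
theorem MSt.bob_mixed {m n : ℕ} {w l₀ l₁ : ℕ}
    {S T₀ T₁ : Finset (Mat m n)} {c N c₁ : ℕ} {S' T' : Finset (Mat m n)}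
    (hS : S' ⊆ S) (hT : T' ⊆ T₀) (hd : MDec w S' T' N) (h1 : MSep c (S \ S') T₀)
    (h2 : MSep c S (T₀ \ T')) (hcw : c ≤ w) (hcl : c ≤ l₀) (hN : w * (N + 4) + 6 * c ≤ 6 * l₀)
    (h' : MSep c₁ S T₁) (hc₁w : c₁ ≤ w) (hc₁ : c₁ ≤ l₁) : MSt w (l₀ + l₁) S (T₀ ∪ T₁) := by
  by_cases hw : c + c₁ ≤ w
  · refine Or.inr ⟨c + c₁, N, S', T', hS, hT.trans Finset.subset_union_left, hd, ?_, ?_, hw,
      by omega, by omega⟩
    · exact h1.union_right (h'.mono le_rfl Finset.sdiff_subset (Finset.Subset.refl _))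
    · refine (h2.union_right h').mono le_rfl (Finset.Subset.refl _) ?_
      intro X hX
      simp only [Finset.mem_sdiff, Finset.mem_union] at hX ⊢
      tauto
  · refine Or.inr ⟨0, N + 2 + 1, S, T₀ ∪ T₁, Finset.Subset.refl _, Finset.Subset.refl _,
      MDec.bob (Finset.Subset.refl _) (hd.close hcw h1 h2 hS)
        (MDec.unit (h'.mono hc₁w (Finset.Subset.refl _) (Finset.Subset.refl _))),
      MSep.self_diff _ _ _, MSep.diff_self _ _ _, Nat.zero_le _, Nat.zero_le _, ?_⟩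
    have e : w * (N + 2 + 1 + 4) = w * (N + 4) + 3 * w := by ring
    omega

theorem MSt.alice {m n : ℕ} {w l₀ l₁ : ℕ}
    {S₀ S₁ T : Finset (Mat m n)} (h₀ : MSt w l₀ S₀ T) (h₁ : MSt w l₁ S₁ T) :
    MSt w (l₀ + l₁) (S₀ ∪ S₁) T := by
  rcases h₀ with ⟨c₀, s₀, hw₀, hl₀⟩ | ⟨c₀, N₀, S₀', T₀', hS₀, hT₀, d₀, s₀, t₀, hw₀, hl₀, hN₀⟩
  · rcases h₁ with ⟨c₁, s₁, hw₁, hl₁⟩ | ⟨c₁, N₁, S₁', T₁', hS₁, hT₁, d₁, s₁, t₁, hw₁, hl₁, hN₁⟩
    · by_cases hw : c₀ + c₁ ≤ w
      · exact Or.inl ⟨c₀ + c₁, s₀.union_left s₁, hw, by omega⟩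
      · refine Or.inr ⟨0, 1 + 1, S₀ ∪ S₁, T, Finset.Subset.refl _, Finset.Subset.refl _,
          MDec.alice (Finset.Subset.refl _)
            (MDec.unit (s₀.mono hw₀ (Finset.Subset.refl _) (Finset.Subset.refl _)))
            (MDec.unit (s₁.mono hw₁ (Finset.Subset.refl _) (Finset.Subset.refl _))),
          MSep.self_diff _ _ _, MSep.diff_self _ _ _, Nat.zero_le _, Nat.zero_le _, ?_⟩
        omega
    · rw [Finset.union_comm, Nat.add_comm]
      exact MSt.alice_mixed hS₁ hT₁ d₁ s₁ t₁ hw₁ hl₁ hN₁ s₀ hw₀ hl₀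
  · rcases h₁ with ⟨c₁, s₁, hw₁, hl₁⟩ | ⟨c₁, N₁, S₁', T₁', hS₁, hT₁, d₁, s₁, t₁, hw₁, hl₁, hN₁⟩
    · exact MSt.alice_mixed hS₀ hT₀ d₀ s₀ t₀ hw₀ hl₀ hN₀ s₁ hw₁ hl₁
    · refine Or.inr ⟨0, (N₀ + 2) + (N₁ + 2), S₀ ∪ S₁, T, Finset.Subset.refl _,
        Finset.Subset.refl _, MDec.alice (Finset.Subset.refl _) (d₀.close hw₀ s₀ t₀ hS₀)
          (d₁.close hw₁ s₁ t₁ hS₁),
        MSep.self_diff _ _ _, MSep.diff_self _ _ _, Nat.zero_le _, Nat.zero_le _, ?_⟩
      have e : w * ((N₀ + 2) + (N₁ + 2) + 4) = w * (N₀ + 4) + w * (N₁ + 4) := by ring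
      omega

theorem MSt.bob {m n : ℕ} {w l₀ l₁ : ℕ}
    {S T₀ T₁ : Finset (Mat m n)} (h₀ : MSt w l₀ S T₀) (h₁ : MSt w l₁ S T₁) :
    MSt w (l₀ + l₁) S (T₀ ∪ T₁) := by
  rcases h₀ with ⟨c₀, s₀, hw₀, hl₀⟩ | ⟨c₀, N₀, S₀', T₀', hS₀, hT₀, d₀, s₀, t₀, hw₀, hl₀, hN₀⟩
  · rcases h₁ with ⟨c₁, s₁, hw₁, hl₁⟩ | ⟨c₁, N₁, S₁', T₁', hS₁, hT₁, d₁, s₁, t₁, hw₁, hl₁, hN₁⟩
    · by_cases hw : c₀ + c₁ ≤ w
      · exact Or.inl ⟨c₀ + c₁, s₀.union_right s₁, hw, by omega⟩
      · refine Or.inr ⟨0, 1 + 1, S, T₀ ∪ T₁, Finset.Subset.refl _, Finset.Subset.refl _,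
          MDec.bob (Finset.Subset.refl _)
            (MDec.unit (s₀.mono hw₀ (Finset.Subset.refl _) (Finset.Subset.refl _)))
            (MDec.unit (s₁.mono hw₁ (Finset.Subset.refl _) (Finset.Subset.refl _))),
          MSep.self_diff _ _ _, MSep.diff_self _ _ _, Nat.zero_le _, Nat.zero_le _, ?_⟩
        omega
    · rw [Finset.union_comm, Nat.add_comm]
      exact MSt.bob_mixed hS₁ hT₁ d₁ s₁ t₁ hw₁ hl₁ hN₁ s₀ hw₀ hl₀
  · rcases h₁ with ⟨c₁, s₁, hw₁, hl₁⟩ | ⟨c₁, N₁, S₁', T₁', hS₁, hT₁, d₁, s₁, t₁, hw₁, hl₁, hN₁⟩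
    · exact MSt.bob_mixed hS₀ hT₀ d₀ s₀ t₀ hw₀ hl₀ hN₀ s₁ hw₁ hl₁
    · refine Or.inr ⟨0, (N₀ + 2) + (N₁ + 2), S, T₀ ∪ T₁, Finset.Subset.refl _,
        Finset.Subset.refl _, MDec.bob (Finset.Subset.refl _) (d₀.close hw₀ s₀ t₀ hS₀)
          (d₁.close hw₁ s₁ t₁ hS₁),
        MSep.self_diff _ _ _, MSep.diff_self _ _ _, Nat.zero_le _, Nat.zero_le _, ?_⟩
      have e : w * ((N₀ + 2) + (N₁ + 2) + 4) = w * (N₀ + 4) + w * (N₁ + 4) := by ring
      omega

/-- The induction over the formula. -/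
theorem st_of_formula {m n : ℕ} {w : ℕ} (hw : 1 ≤ w) (F : Mf (Fin m × Fin n)) :
    ∀ S T : Finset (Mat m n), (∀ X ∈ S, F.at X = true) → (∀ Y ∈ T, F.at Y = false) →
      MSt w F.size S T := by
  classical
  induction F with
  | const b =>
    intro S T hS hT
    exact Or.inl ⟨0, Or.inr (Or.inr ⟨.const b, le_rfl, hS, hT⟩), Nat.zero_le _, Nat.zero_le _⟩
  | var v =>
    intro S T hS hT
    exact Or.inl ⟨1, Or.inr (Or.inr ⟨.var v, le_rfl, hS, hT⟩), hw, le_rfl⟩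
  | and F G ihF ihG =>
    intro S T hS hT
    have e : T = T.filter (fun Y => F.at Y = false) ∪
        T.filter (fun Y => ¬ F.at Y = false) := (Finset.filter_union_filter_not_eq _ _).symm
    rw [e]
    have hS' : ∀ X ∈ S, F.at X = true ∧ G.at X = true := by
      intro X hX
      have := hS X hX
      simpa only [Mf.at, Mf.eval, Bool.and_eq_true] using this
    refine MSt.bob (ihF _ _ (fun X hX => (hS' X hX).1) (fun Y hY => (Finset.mem_filter.1 hY).2))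
      (ihG _ _ (fun X hX => (hS' X hX).2) ?_)
    intro Y hY
    obtain ⟨h1, h2⟩ := Finset.mem_filter.1 hY
    have h3 := hT Y h1
    simp only [Mf.at, Mf.eval] at h2 h3 ⊢
    have h4 : F.eval (fun v => Y v.1 v.2) = true := by simpa using h2
    rw [h4, Bool.true_and] at h3
    exact h3
  | or F G ihF ihG =>
    intro S T hS hT
    have e : S = S.filter (fun Y => F.at Y = true) ∪
        S.filter (fun Y => ¬ F.at Y = true) := (Finset.filter_union_filter_not_eq _ _).symm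
    rw [e]
    have hT' : ∀ X ∈ T, F.at X = false ∧ G.at X = false := by
      intro X hX
      have := hT X hX
      simpa only [Mf.at, Mf.eval, Bool.or_eq_false_iff] using this
    refine MSt.alice (ihF _ _ (fun Y hY => (Finset.mem_filter.1 hY).2) (fun X hX => (hT' X hX).1))
      (ihG _ _ ?_ (fun X hX => (hT' X hX).2))
    intro Y hY
    obtain ⟨h1, h2⟩ := Finset.mem_filter.1 hY
    have h3 := hS Y h1
    simp only [Mf.at, Mf.eval] at h2 h3 ⊢
    have h4 : F.eval (fun v => Y v.1 v.2) = false := by simpa using h2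
    rw [h4, Bool.false_or] at h3
    exact h3

/-- The root: either one small separation or few pieces. -/
theorem dec_of_formula {m n : ℕ} {w : ℕ} (hw : 1 ≤ w) (F : Mf (Fin m × Fin n))
    (S T : Finset (Mat m n)) (hS : ∀ X ∈ S, F.at X = true) (hT : ∀ Y ∈ T, F.at Y = false) :
    MSep w S T ∨ ∃ N, MDec w S T N ∧ w * N ≤ 6 * F.size := by
  rcases st_of_formula hw F S T hS hT with ⟨c, s, hcw, _⟩ |
    ⟨c, N, S', T', hS, hT, d, s, t, hcw, hcl, hN⟩
  · exact Or.inl (s.mono hcw (Finset.Subset.refl _) (Finset.Subset.refl _))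
  · refine Or.inr ⟨N + 2, d.close hcw s t hS, ?_⟩
    have e : w * (N + 4) = w * (N + 2) + 2 * w := by ring
    omega

end Pool.Agent.H.MP_027d00_lc.Monot
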