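import Pool.Agent.H.MP_027d00_lc.mono.Hard
import Pool.Agent.H.MP_027d00_lc.mono.Tree
import Pool.Agent.H.MP_027d00_lc.strong.Switch

/-!
# Changing the types of the rows to zero, and dropping a few rows
-/

set_option autoImplicit false

open Finset

namespace Pool.Agent.H.MP_027d00_lc.Monot

open UComp (Mat W W_nonneg W_supp)
open SComp (pr pr_nonneg pr_mono pr_univ pr_union sum_update sum_update')

/-- `μ true` and `μ false` are distributions on `g⁻¹(1)` and `g⁻¹(0)`, and no function with a
monotone formula with at most `w` leaves is much more likely under `μ true`. -/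
structure MHard {n : ℕ} (m w : ℕ) (τ : ℝ) (g : (Fin n → Bool) → Bool)
    (μ : Bool → (Fin n → Bool) → ℝ) : Prop where
  nonneg : ∀ b x, 0 ≤ μ b x
  sum : ∀ b, ∑ x, μ b x = 1
  supp : ∀ b x, μ b x ≠ 0 → g x = b
  hard : ∀ h : (Fin n → Bool) → Bool, MComp w h →
    ∑ x, μ true x * ind (h x) ≤ (1 + 1 / (8 * (m : ℝ))) * ∑ x, μ false x * ind (h x) + τ

/-- Families of sets of matrices, indexed by the sets of rows that are looked at, which increase if
fewer rows are looked at, and are given row by row by monotone formulas with at most `w` leaves. -/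
structure MFam {m n : ℕ} (w : ℕ) (U : Finset (Fin m) → Finset (Mat m n)) : Prop where
  anti : ∀ I I' : Finset (Fin m), I ⊆ I' → U I' ⊆ U I
  loc : ∀ (I : Finset (Fin m)) (i : Fin m) (X : Mat m n) (x : Fin n → Bool), i ∉ I →
    Function.update X i x ∈ U I → X ∈ U I
  row : ∀ (I : Finset (Fin m)) (i : Fin m) (X : Mat m n),
    MComp w (fun x : Fin n → Bool => decide (Function.update X i x ∈ U I))

/-- Changing the type of row `i` from one to zero. -/
theorem switch1 {m n w : ℕ} {τ : ℝ} {g : (Fin n → Bool) → Bool}
    {μ : Bool → (Fin n → Bool) → ℝ} (hH : MHard m w τ g μ)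
    {U : Finset (Fin m) → Finset (Mat m n)} (hU : MFam w U) (I : Finset (Fin m))
    (t : Fin m → Bool) (i : Fin m) (ht : t i = true) :
    pr μ t (U I) ≤ (1 + 1 / (8 * (m : ℝ))) * pr μ (Function.update t i false) (U I) +
      τ * pr μ t (U (I.erase i)) := by
  classical
  have hpr : ∀ (s : Fin m → Bool) (S : Finset (Mat m n)),
      pr μ s S = ∑ X, W μ s X * (if X ∈ S then (1 : ℝ) else 0) := by
    intro s S
    rw [pr]
    simp only [mul_ite, mul_one, mul_zero]
    rw [Finset.sum_ite_mem, Finset.univ_inter]
  rw [hpr, hpr, hpr, sum_update hH.sum, sum_update' hH.sum, Finset.mul_sum, Finset.mul_sum,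
    ← Finset.sum_add_distrib]
  refine Finset.sum_le_sum fun X _ => ?_
  have hW : 0 ≤ W μ t X := W_nonneg hH.nonneg t X
  have key : ∑ x, μ (t i) x * (if Function.update X i x ∈ U I then (1 : ℝ) else 0) ≤
      (1 + 1 / (8 * (m : ℝ))) *
        (∑ x, μ false x * (if Function.update X i x ∈ U I then (1 : ℝ) else 0)) +
      τ * (if X ∈ U (I.erase i) then (1 : ℝ) else 0) := by
    by_cases hX : X ∈ U (I.erase i)
    · rw [if_pos hX, mul_one, ht]
      have h := hH.hard _ (hU.row I i X)
      have e : ∀ x, ind (decide (Function.update X i x ∈ U I)) =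
          if Function.update X i x ∈ U I then (1 : ℝ) else 0 := by
        intro x
        by_cases hx : Function.update X i x ∈ U I <;> simp [ind, hx]
      simp only [e] at h
      exact h
    · have h0 : ∀ x, Function.update X i x ∉ U I := by
        intro x hx
        exact hX (hU.loc (I.erase i) i X x (Finset.notMem_erase i I)
          (hU.anti (I.erase i) I (Finset.erase_subset i I) hx))
      simp [h0, hX]
  calc W μ t X * ∑ x, μ (t i) x * (if Function.update X i x ∈ U I then (1 : ℝ) else 0)
      ≤ W μ t X * ((1 + 1 / (8 * (m : ℝ))) *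
        (∑ x, μ false x * (if Function.update X i x ∈ U I then (1 : ℝ) else 0)) +
      τ * (if X ∈ U (I.erase i) then (1 : ℝ) else 0)) := mul_le_mul_of_nonneg_left key hW
    _ = _ := by ring

private theorem drop_exp : Real.exp (1 / 8) ≤ 1.14 := by
  have h1 : Real.exp (1 / 8) ^ 8 = Real.exp 1 := by
    rw [← Real.exp_nat_mul]
    norm_num
  have h2 := Real.exp_one_lt_d9
  by_contra h
  push Not at h
  have h3 : (1.14 : ℝ) ^ 8 ≤ Real.exp (1 / 8) ^ 8 := pow_le_pow_left₀ (by norm_num) h.le 8
  rw [h1] at h3
  norm_num at h3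
  linarith

private theorem drop_pow {m : ℕ} (hm : 1 ≤ m) {d : ℕ} (hd : d ≤ m) :
    (1 + 1 / (8 * (m : ℝ))) ^ d ≤ 1.14 := by
  have hm0 : (0 : ℝ) < m := by exact_mod_cast hm
  have hk : (1 : ℝ) ≤ 1 + 1 / (8 * (m : ℝ)) := by
    have : (0 : ℝ) ≤ 1 / (8 * (m : ℝ)) := by positivity
    linarith
  calc (1 + 1 / (8 * (m : ℝ))) ^ d ≤ (1 + 1 / (8 * (m : ℝ))) ^ m := pow_le_pow_right₀ hk hd
    _ ≤ (Real.exp (1 / (8 * (m : ℝ)))) ^ m := by
        refine pow_le_pow_left₀ (by linarith) ?_ m
        have := Real.add_one_le_exp (1 / (8 * (m : ℝ)))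
        linarith
    _ = Real.exp (1 / 8) := by
        rw [← Real.exp_nat_mul]
        congr 1
        field_simp
    _ ≤ 1.14 := drop_exp

private theorem drop_hyb1 {m : ℕ} (P : (Fin m → Bool) → ℝ) {k e : ℝ}
    (hk : 1 ≤ k) (he : 0 ≤ e) (h : ∀ (t : Fin m → Bool) (i : Fin m), t i = true →
      P t ≤ k * P (Function.update t i false) + e) (d : ℕ) :
    ∀ t : Fin m → Bool, (univ.filter (fun i => t i = true)).card = d →
      P t ≤ k ^ d * (P (fun _ => false) + d * e) := by
  induction d with
  | zero =>
    intro t ht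
    have ht2 : t = fun _ => false := by
      rw [Finset.card_eq_zero] at ht
      funext i
      by_contra hi
      have : i ∈ (univ.filter (fun i => t i = true)) := by simpa using hi
      rw [ht] at this
      simp at this
    rw [ht2]
    simp
  | succ d ih =>
    intro t ht
    obtain ⟨i, hi⟩ : (univ.filter (fun i => t i = true)).Nonempty := by
      rw [← Finset.card_pos, ht]
      omega
    have hi2 : t i = true := by simpa using hi
    have hc : (univ.filter (fun j => Function.update t i false j = true)).card = d := by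
      have he : univ.filter (fun j => Function.update t i false j = true) =
          (univ.filter (fun i => t i = true)).erase i := by
        ext j
        simp only [mem_filter, mem_univ, true_and, mem_erase]
        by_cases hj : j = i
        · subst hj
          simp
        · rw [Function.update_of_ne hj]
          exact ⟨fun h1 => ⟨hj, h1⟩, fun h1 => h1.2⟩
      rw [he, Finset.card_erase_of_mem hi, ht]
      omega
    have h1 := ih _ hc
    have h2 := h t i hi2
    have hk0 : 0 ≤ k := by linarith
    have h3 : k * P (Function.update t i false) ≤ k * (k ^ d * (P (fun _ => false) + d * e)) :=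
      mul_le_mul_of_nonneg_left h1 hk0
    have h4 : (1 : ℝ) ≤ k ^ (d + 1) := one_le_pow₀ hk
    have h5 : e ≤ k ^ (d + 1) * e := by nlinarith
    have h6 : k ^ (d + 1) * (P (fun _ => false) + ((d + 1 : ℕ) : ℝ) * e) =
        k * (k ^ d * (P (fun _ => false) + d * e)) + k ^ (d + 1) * e := by
      push_cast
      ring
    rw [h6]
    linarith

/-- The hybrid argument with the additive error `e` in each step, to the types zero. -/
theorem hyb_steps1 {m : ℕ} (hm : 1 ≤ m) (P : (Fin m → Bool) → ℝ) (hP : ∀ t, 0 ≤ P t) {e : ℝ}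
    (he : 0 ≤ e) (h : ∀ (t : Fin m → Bool) (i : Fin m), t i = true →
      P t ≤ (1 + 1 / (8 * (m : ℝ))) * P (Function.update t i false) + e) (t : Fin m → Bool) :
    P t ≤ 1.14 * (P (fun _ => false) + m * e) := by
  have hm0 : (0 : ℝ) < m := by exact_mod_cast hm
  have hk : (1 : ℝ) ≤ 1 + 1 / (8 * (m : ℝ)) := by
    have : (0 : ℝ) ≤ 1 / (8 * (m : ℝ)) := by positivity
    linarith
  have h1 := drop_hyb1 P hk he h _ t rfl
  have hd : (univ.filter (fun i => t i = true)).card ≤ m := by
    calc _ ≤ (univ : Finset (Fin m)).card := Finset.card_filter_le _ _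
      _ = m := by simp
  obtain ⟨d, hdd⟩ : ∃ d, d = (univ.filter (fun i => t i = true)).card := ⟨_, rfl⟩
  rw [← hdd] at h1 hd
  have h2 := drop_pow hm hd
  have h3 : (d : ℝ) * e ≤ m * e := mul_le_mul_of_nonneg_right (by exact_mod_cast hd) he
  have h4 : 0 ≤ P (fun _ => false) + d * e := add_nonneg (hP _) (by positivity)
  calc P t ≤ (1 + 1 / (8 * (m : ℝ))) ^ d * (P (fun _ => false) + d * e) := h1
    _ ≤ 1.14 * (P (fun _ => false) + d * e) := mul_le_mul_of_nonneg_right h2 h4
    _ ≤ 1.14 * (P (fun _ => false) + m * e) := by linarith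

/-- A set of probability at least `p` under some types has probability at least `p / 2` under the
types zero if at most `r` suitable rows are dropped. -/
theorem drop_rows1 {m n w : ℕ} (hm : 1 ≤ m) {τ : ℝ} (hτ : 0 < τ) (hτ1 : 8 * m * τ ≤ 1)
    {g : (Fin n → Bool) → Bool} {μ : Bool → (Fin n → Bool) → ℝ} (hH : MHard m w τ g μ)
    {U : Finset (Fin m) → Finset (Mat m n)} (hU : MFam w U) (r : ℕ) :
    ∀ (I : Finset (Fin m)) (t : Fin m → Bool) (p : ℝ), 0 < p →
      (8 * m * τ) ^ r * (3 * m * τ) ≤ p → p ≤ pr μ t (U I) →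
      ∃ J : Finset (Fin m), J.card ≤ r ∧ p / 2 ≤ pr μ (fun _ => false) (U (I \ J)) := by
  have hm0 : (0 : ℝ) < m := by exact_mod_cast hm
  have hmτ : 0 < 8 * m * τ := by positivity
  induction r with
  | zero =>
    intro I t p hp h1 h2
    refine ⟨∅, by simp, ?_⟩
    rw [Finset.sdiff_empty]
    have h3 := hyb_steps1 hm (fun t => pr μ t (U I)) (fun t => pr_nonneg hH.nonneg t _) hτ.le
      (by
        intro t i ht
        have h1 := switch1 hH hU I t i ht
        have h2 : pr μ t (U (I.erase i)) ≤ 1 := by
          rw [← pr_univ hH.sum t]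
          exact pr_mono hH.nonneg t (Finset.subset_univ _)
        have h3 : τ * pr μ t (U (I.erase i)) ≤ τ * 1 := mul_le_mul_of_nonneg_left h2 hτ.le
        linarith) t
    rw [pow_zero, one_mul] at h1
    linarith
  | succ r ih =>
    intro I t p hp h1 h2
    by_cases H : ∀ (t' : Fin m → Bool) (i : Fin m), τ * pr μ t' (U (I.erase i)) ≤ p / (8 * m)
    · refine ⟨∅, by simp, ?_⟩
      rw [Finset.sdiff_empty]
      have h3 := hyb_steps1 hm (fun t => pr μ t (U I)) (fun t => pr_nonneg hH.nonneg t _)
        (e := p / (8 * m)) (by positivity) (fun t i ht => by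
          have h4 := switch1 hH hU I t i ht
          have h5 := H t i
          linarith) t
      have h6 : (m : ℝ) * (p / (8 * m)) = p / 8 := by
        field_simp
      rw [h6] at h3
      linarith
    · push Not at H
      obtain ⟨t', i, hi⟩ := H
      have hp' : 0 < p / (8 * m * τ) := by positivity
      have h3 : p / (8 * m * τ) ≤ pr μ t' (U (I.erase i)) := by
        rw [div_le_iff₀ hmτ]
        rw [div_lt_iff₀ (by positivity)] at hi
        linarith
      have h4 : (8 * m * τ) ^ r * (3 * m * τ) ≤ p / (8 * m * τ) := by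
        rw [le_div_iff₀ hmτ]
        calc (8 * m * τ) ^ r * (3 * m * τ) * (8 * m * τ) = (8 * m * τ) ^ (r + 1) * (3 * m * τ) := by
              ring
          _ ≤ p := h1
      obtain ⟨J', hJ1, hJ2⟩ := ih (I.erase i) t' _ hp' h4 h3
      refine ⟨insert i J', (Finset.card_insert_le _ _).trans (by omega), ?_⟩
      have h5 : I \ insert i J' = (I.erase i) \ J' := by
        ext j
        simp only [mem_sdiff, mem_insert, mem_erase, not_or]
        tauto
      rw [h5]
      refine le_trans ?_ hJ2
      have h6 : p ≤ p / (8 * m * τ) := by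
        rw [le_div_iff₀ hmτ]
        nlinarith
      linarith

/-! ### The assignments -/

/-- Alice: the rows in `I` are set to zero outside of `a`, the other rows are constant. -/
def asA {m n : ℕ} (a : Fin m → Bool) (I : Finset (Fin m)) (X : Mat m n) : Mat m n :=
  fun i j => if i ∈ I then X i j && a i else a i

/-- Bob: the rows in `b` are set to one. -/
def asB {m n : ℕ} (b : Fin m → Bool) (Y : Mat m n) : Mat m n := fun i j => Y i j || b i

/-- The matrices accepted by `F`. -/
def setA {m n : ℕ} (F : Mf (Fin m × Fin n)) (a : Fin m → Bool) (I : Finset (Fin m)) :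
    Finset (Mat m n) :=
  univ.filter (fun X => F.at (asA a I X) = true)

/-- The matrices rejected by `F`. -/
def setB {m n : ℕ} (F : Mf (Fin m × Fin n)) (b : Fin m → Bool) : Finset (Mat m n) :=
  univ.filter (fun Y => F.at (asB b Y) = false)

theorem mem_setA {m n : ℕ} (F : Mf (Fin m × Fin n)) (a : Fin m → Bool) (I : Finset (Fin m))
    (X : Mat m n) : X ∈ setA F a I ↔ F.at (asA a I X) = true := by
  rw [setA, Finset.mem_filter]
  exact and_iff_right (Finset.mem_univ _)

theorem mem_setB {m n : ℕ} (F : Mf (Fin m × Fin n)) (b : Fin m → Bool)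
    (Y : Mat m n) : Y ∈ setB F b ↔ F.at (asB b Y) = false := by
  rw [setB, Finset.mem_filter]
  exact and_iff_right (Finset.mem_univ _)

theorem fam_A {m n w : ℕ} (F : Mf (Fin m × Fin n)) (hF : F.size ≤ w) (a : Fin m → Bool) :
    MFam w (setA F a) := by
  classical
  refine ⟨fun I I' h X hX => ?_, fun I i X x hi hX => ?_, fun I i X => ?_⟩
  · rw [mem_setA] at hX ⊢
    refine F.eval_mono (fun v hv => ?_) hX
    simp only [asA] at hv ⊢
    by_cases h1 : v.1 ∈ I
    · rw [if_pos h1]
      rwa [if_pos (h h1)] at hv
    · rw [if_neg h1]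
      by_cases h2 : v.1 ∈ I'
      · rw [if_pos h2, Bool.and_eq_true] at hv
        exact hv.2
      · rwa [if_neg h2] at hv
  · rw [mem_setA] at hX ⊢
    have e : asA a I (Function.update X i x) = asA a I X := by
      funext i' j
      unfold asA
      by_cases h1 : i' ∈ I
      · have h2 : i' ≠ i := fun h => hi (h ▸ h1)
        rw [Function.update_of_ne h2]
      · rw [if_neg h1, if_neg h1]
    rwa [e] at hX
  · have h1 := (F.toMComp (W := Fin n)
      (fun v (x : Fin n → Bool) => asA a I (Function.update X i x) v.1 v.2) (by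
        intro v
        unfold asA
        by_cases h1 : v.1 ∈ I
        · simp only [if_pos h1]
          by_cases h2 : v.1 = i
          · have e : (fun x : Fin n → Bool => (Function.update X i x v.1 v.2) && (a v.1)) =
                fun x => x v.2 && a v.1 := by
              funext x
              rw [h2, Function.update_self]
            rw [e]
            cases a v.1 with
            | true => simpa using MComp.var v.2
            | false => simpa using MComp.const (V := Fin n) 1 false
          · simp only [Function.update_of_ne h2]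
            exact MComp.const 1 _
        · simp only [if_neg h1]
          exact MComp.const 1 _)).mono hF
    have e : (fun x : Fin n → Bool => decide (Function.update X i x ∈ setA F a I)) =
        fun x => F.eval fun v => asA a I (Function.update X i x) v.1 v.2 := by
      funext x
      rw [Bool.eq_iff_iff, decide_eq_true_iff, mem_setA]
      rfl
    rw [e]
    exact h1

/-- The conflict. -/
theorem conflict1 {m n : ℕ} {F : Mf (Fin m × Fin n)} {a b : Fin m → Bool} {I : Finset (Fin m)}
    {X Y : Mat m n} (hX : X ∈ setA F a I) (hY : Y ∈ setB F b) :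
    ∃ i, a i = true ∧ b i = false ∧ (i ∈ I → X i ≠ Y i) := by
  rw [mem_setA] at hX
  rw [mem_setB] at hY
  obtain ⟨v, h1, h2⟩ := F.conflict hX hY
  simp only [asA, asB, Bool.or_eq_false_iff] at h1 h2
  refine ⟨v.1, ?_, h2.2, fun hI h => ?_⟩
  · by_cases hv : v.1 ∈ I
    · rw [if_pos hv, Bool.and_eq_true] at h1
      exact h1.2
    · rwa [if_neg hv] at h1
  · rw [if_pos hI, Bool.and_eq_true] at h1
    rw [h, h2.1] at h1
    exact absurd h1.1 (by simp)

end Pool.Agent.H.MP_027d00_lc.Monot
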