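import Pool.Agent.H.MP_027d00_lc.mono.Main
import Pool.Agent.H.MP_027d00_lc.strong.Final3

/-!
# The lower bound for the monotone composition of any two monotone functions
-/

set_option autoImplicit false

open Finset

namespace Pool.Agent.H.MP_027d00_lc.Monot

open UComp (Mat W W_nonneg W_supp rows)
open SComp (SS3 rootS final_num3)

/-- The logarithm of the size bound. -/
theorem log_sizeM {m N L : ℕ} (hm : 1 ≤ m) (hN : 1 ≤ N) {θ : ℝ} (hθ : 0 < θ)
    (hθ1 : θ ≤ 1 / 3) (hLpos : 1 ≤ L)
    (hL : L ≤ N * ((m + 1) ^ 31 *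
          (216 * m ^ 3 * (2 ^ 31 * ⌊SS3 m (1 / (4 * N)) θ⌋₊ * m)))) :
    Real.logb 2 L ≤ (3 / 2 + 1 / θ) * (Real.logb 2 N + (8 * Real.logb 2 m + 22)) +
      m * Real.logb 2 (1 + θ) := by
  have hmR : (1 : ℝ) ≤ m := by exact_mod_cast hm
  have hNR : (1 : ℝ) ≤ N := by exact_mod_cast hN
  have lb : ∀ x : ℝ, 1 ≤ x → 0 ≤ Real.logb 2 x := fun x hx =>
    Real.logb_nonneg (by norm_num) hx
  have hlm := lb m hmR
  have hlN := lb N hNR
  have hlog2 : 0 < Real.log 2 := Real.log_pos (by norm_num)
  have hlog2' : Real.log 2 < 0.6931471808 := Real.log_two_lt_d9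
  set ρ : ℝ := 1 / (4 * (N : ℝ)) with hρ
  have hρ0 : 0 < ρ := by positivity
  have hLR : (1 : ℝ) ≤ L := by exact_mod_cast hLpos
  have h1 : (L : ℝ) ≤ N * ((m + 1) ^ 31 *
      (216 * m ^ 3 * (2 ^ 31 * SS3 m ρ θ * m))) := by
    have h2 : (L : ℝ) ≤ N * ((m + 1) ^ 31 *
      (216 * m ^ 3 * (2 ^ 31 * (⌊SS3 m ρ θ⌋₊ : ℝ) * m))) := by exact_mod_cast hL
    have h3 : (⌊SS3 m ρ θ⌋₊ : ℝ) ≤ SS3 m ρ θ := by
      apply Nat.floor_le
      unfold SS3
      positivity
    refine h2.trans ?_
    gcongr
  have hln1 : 1 + (m : ℝ) * Real.log 2 ≤ 2 * m := by nlinarith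
  have hpos1 : 0 < 1 + (m : ℝ) * Real.log 2 := by positivity
  have h4 : (L : ℝ) ≤ N * ((2 * m) ^ 31 *
      (2 ^ 8 * m ^ 3 * (2 ^ 31 * (2 ^ 2 / Real.sqrt (ρ / 2 ^ 2) *
        ((1 + θ) ^ m / (ρ / 2 ^ 6) ^ (1 / θ) * (2 * m))) * m))) := by
    refine h1.trans ?_
    unfold SS3
    have h5 : (ρ / 2 ^ 6) ^ (1 / θ) ≤ (ρ / 48) ^ (1 / θ) :=
      Real.rpow_le_rpow (by positivity) (by
        apply div_le_div_of_nonneg_left hρ0.le (by norm_num) (by norm_num)) (by positivity)
    have h6 : 0 < (ρ / 2 ^ 6) ^ (1 / θ) := Real.rpow_pos_of_pos (by positivity) _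
    have h7 : 0 < (ρ / 48) ^ (1 / θ) := Real.rpow_pos_of_pos (by positivity) _
    have h8 : ((2 : ℝ)) ^ 2 = 4 := by norm_num
    have h9 : (0 : ℝ) < Real.sqrt (ρ / 4) := Real.sqrt_pos.2 (by positivity)
    rw [h8]
    gcongr
    · linarith
    · norm_num
    · norm_num
  have h5 := Real.logb_le_logb_of_le (b := 2) (by norm_num) (by linarith) h4
  have hsq : Real.logb 2 (Real.sqrt (ρ / 2 ^ 2)) = 1 / 2 * Real.logb 2 (ρ / 2 ^ 2) := by
    rw [Real.sqrt_eq_rpow, Real.logb_rpow_eq_mul_logb_of_pos (by positivity)]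
  have hρl : Real.logb 2 ρ = -(2 + Real.logb 2 N) := by
    rw [hρ, one_div, Real.logb_inv, Real.logb_mul (by norm_num) (by positivity)]
    have : Real.logb 2 4 = 2 := by
      rw [show (4 : ℝ) = 2 ^ (2 : ℕ) by norm_num, Real.logb_pow, Real.logb_self_eq_one (by norm_num)]
      norm_num
    rw [this]
  have h6 : 0 < (ρ / 2 ^ 6) ^ (1 / θ) := Real.rpow_pos_of_pos (by positivity) _
  have h7 : 0 < Real.sqrt (ρ / 2 ^ 2) := Real.sqrt_pos.2 (by positivity)
  have h8 : 0 < (1 + θ) ^ m := by positivity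
  have hm0 : (m : ℝ) ≠ 0 := by positivity
  have hN0 : (N : ℝ) ≠ 0 := by positivity
  rw [Real.logb_mul (by positivity) (by positivity), Real.logb_mul (by positivity) (by positivity),
    Real.logb_mul (by positivity) (by positivity), Real.logb_mul (by positivity) (by positivity),
    Real.logb_mul (by positivity) (by positivity), Real.logb_mul (by positivity) (by positivity),
    Real.logb_mul (by positivity) (by positivity),
    Real.logb_div (by positivity) (by positivity),
    Real.logb_mul (by positivity) (by positivity), Real.logb_div (by positivity) (by positivity),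
    Real.logb_pow, Real.logb_pow, Real.logb_pow, Real.logb_pow, Real.logb_pow, Real.logb_pow,
    Real.logb_rpow_eq_mul_logb_of_pos (by positivity), Real.logb_mul (by norm_num) (by positivity),
    Real.logb_div (by positivity) (by positivity), hsq, Real.logb_div (by positivity)
      (by positivity), Real.logb_pow, Real.logb_pow, Real.logb_self_eq_one (by norm_num), hρl] at h5
  push_cast at h5
  set k : ℝ := Real.logb 2 N with hk
  have hθinv : 3 ≤ 1 / θ := by
    rw [le_div_iff₀ hθ]
    linarith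
  set T : ℝ := 1 / θ with hT
  nlinarith

/-- The factor `K`. -/
def KM (m n : ℕ) : ℕ := 8 * (288 ^ 6 * 216) * m ^ 7 * n ^ 3

theorem logb_KM {m n : ℕ} (hm : 1 ≤ m) (hn : 1 ≤ n) :
    Real.logb 2 (KM m n) ≤ 60 + 7 * Real.logb 2 m + 3 * Real.logb 2 n := by
  have hm0 : (0 : ℝ) < m := by exact_mod_cast hm
  have hn0 : (0 : ℝ) < n := by exact_mod_cast hn
  have h1 : ((KM m n : ℕ) : ℝ) ≤ 2 ^ 60 * m ^ 7 * n ^ 3 := by
    unfold KM
    push_cast
    gcongr
    norm_num
  have h2 : (0 : ℝ) < (KM m n : ℕ) := by unfold KM; push_cast; positivity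
  have h3 := Real.logb_le_logb_of_le (b := 2) (by norm_num) h2 h1
  rw [Real.logb_mul (by positivity) (by positivity), Real.logb_mul (by positivity) (by positivity),
    Real.logb_pow, Real.logb_pow, Real.logb_pow, Real.logb_self_eq_one (by norm_num)] at h3
  push_cast at h3
  linarith


/-- **Monotone composition.** For all non-constant monotone `f` and `g`. -/
theorem mono_composition {m n : ℕ} (f : (Fin m → Bool) → Bool) (g : (Fin n → Bool) → Bool)
    (hfm : Monotone f) (hgm : Monotone g) (hf : ∃ a b, f a ≠ f b) (hg : ∃ x y, g x ≠ g y)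
    (F : Mf (Fin m × Fin n)) (hF : ∀ X, F.eval X = comp f g X) :
    Real.logb 2 (msize g) + Real.logb 2 (msize f) ^ 2 / (8 * m) -
      (16 * Real.logb 2 m + 3 * Real.logb 2 n + 87) ≤ Real.logb 2 F.size := by
  classical
  have hf' : ∃ a b, f a = true ∧ f b = false := by
    obtain ⟨a, b, hab⟩ := hf
    cases ha : f a <;> cases hb : f b
    · exact absurd (ha.trans hb.symm) hab
    · exact ⟨b, a, hb, ha⟩
    · exact ⟨a, b, ha, hb⟩
    · exact absurd (ha.trans hb.symm) hab
  have hg' : ∃ x y, g x = true ∧ g y = false := by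
    obtain ⟨a, b, hab⟩ := hg
    cases ha : g a <;> cases hb : g b
    · exact absurd (ha.trans hb.symm) hab
    · exact ⟨b, a, hb, ha⟩
    · exact ⟨a, b, ha, hb⟩
    · exact absurd (ha.trans hb.symm) hab
  have hsur : ∀ b : Bool, ∃ x, g x = b := by
    obtain ⟨x, y, hx, hy⟩ := hg'
    intro b
    cases b
    · exact ⟨y, hy⟩
    · exact ⟨x, hx⟩
  have hm : 1 ≤ m := by
    rcases Nat.eq_zero_or_pos m with h | h
    · exfalso
      subst h
      obtain ⟨a, b, ha, hb⟩ := hf'
      have : a = b := funext fun i => i.elim0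
      rw [this, hb] at ha
      exact absurd ha (by simp)
    · exact h
  have hn : 1 ≤ n := by
    rcases Nat.eq_zero_or_pos n with h | h
    · exfalso
      subst h
      obtain ⟨a, b, ha, hb⟩ := hg'
      have : a = b := funext fun i => i.elim0
      rw [this, hb] at ha
      exact absurd ha (by simp)
    · exact h
  have hmR : (1 : ℝ) ≤ m := by exact_mod_cast hm
  have hnR : (1 : ℝ) ≤ n := by exact_mod_cast hn
  have hlm : 0 ≤ Real.logb 2 m := Real.logb_nonneg (by norm_num) hmR
  have hln : 0 ≤ Real.logb 2 n := Real.logb_nonneg (by norm_num) hnR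
  set G : ℕ := msize g with hG
  set L : ℕ := msize f with hL
  set Λ : ℕ := F.size with hΛ
  set K : ℕ := KM m n with hK
  have hK1 : 1 ≤ K := by
    have : 0 < K := by rw [hK]; unfold KM; positivity
    omega
  have hlK := logb_KM hm hn
  rw [← hK] at hlK
  have hcg : ∀ s : ℕ, MComp s g ↔ G ≤ s := fun s => mcomp_iff ⟨_, mcomp_all hgm⟩
  -- a function of formula size 0 is constant
  have hG1 : 1 ≤ G := by
    by_contra hcon
    have h0 : MComp 0 g := (hcg 0).2 (by omega)
    obtain ⟨F, hF, he⟩ := h0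
    have hconst : ∀ F : Mf (Fin n), F.size ≤ 0 → ∀ x y, F.eval x = F.eval y := by
      intro F
      induction F with
      | const b => intro _ x y; rfl
      | var v => intro h; simp [Mf.size] at h
      | and F G ihF ihG =>
        intro h x y
        simp only [Mf.size] at h
        simp only [Mf.eval, ihF (by omega) x y, ihG (by omega) x y]
      | or F G ihF ihG =>
        intro h x y
        simp only [Mf.size] at h
        simp only [Mf.eval, ihF (by omega) x y, ihG (by omega) x y]
    obtain ⟨x, y, hx, hy⟩ := hg'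
    have := hconst F hF x y
    rw [he, he, hx, hy] at this
    exact absurd this (by simp)
  -- the trivial bounds
  have hF1 : ∀ X ∈ (rootS f g true : Finset (Mat m n)), F.at X = true := by
    intro X hX
    rw [rootS, Finset.mem_filter] at hX
    rw [Mf.at, hF]
    exact hX.2
  have hF0 : ∀ X ∈ (rootS f g false : Finset (Mat m n)), F.at X = false := by
    intro X hX
    rw [rootS, Finset.mem_filter] at hX
    rw [Mf.at, hF]
    exact hX.2
  have hroot : MSep Λ (rootS f g true : Finset (Mat m n)) (rootS f g false) :=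
    Or.inr (Or.inr ⟨F, le_rfl, hF1, hF0⟩)
  have hGΛ : G ≤ Λ := (hcg Λ).1 (comp_gM hgm (hsur true) (hsur false) hfm hf' hroot)
  have hLΛ : L ≤ Λ := msize_le (comp_fM hgm (hsur true) (hsur false) hroot)
  have hΛ1 : 1 ≤ Λ := hG1.trans hGΛ
  have hGR : (1 : ℝ) ≤ G := by exact_mod_cast hG1
  have hΛR : (1 : ℝ) ≤ Λ := by exact_mod_cast hΛ1
  have hKR : (1 : ℝ) ≤ K := by exact_mod_cast hK1
  set l : ℝ := Real.logb 2 L with hl
  set D : ℝ := Real.logb 2 Λ - Real.logb 2 G with hD
  have hD0 : 0 ≤ D := by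
    have := Real.logb_le_logb_of_le (b := 2) (by norm_num) (by linarith : (0 : ℝ) < G)
      (by exact_mod_cast hGΛ : (G : ℝ) ≤ Λ)
    linarith
  have hlG0 : 0 ≤ Real.logb 2 G := Real.logb_nonneg (by norm_num) hGR
  have hlΛ0 : 0 ≤ Real.logb 2 Λ := Real.logb_nonneg (by norm_num) hΛR
  have hlK0 : 0 ≤ Real.logb 2 K := Real.logb_nonneg (by norm_num) hKR
  have hl0 : 0 ≤ l := by
    rcases Nat.eq_zero_or_pos L with h | h
    · rw [hl, h]; simp
    · exact Real.logb_nonneg (by norm_num) (by exact_mod_cast h)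
  have hl2 : l ≤ m + Real.logb 2 m := by
    rcases Nat.eq_zero_or_pos L with h | h
    · rw [hl, h]; simp; linarith
    · have h1 : ((L : ℕ) : ℝ) ≤ 2 ^ m * m := by exact_mod_cast (msize_le (mcomp_all hfm))
      have h2 := Real.logb_le_logb_of_le (b := 2) (by norm_num)
        (by exact_mod_cast h : (0 : ℝ) < (L : ℕ)) h1
      rw [Real.logb_mul (by positivity) (by positivity), Real.logb_pow,
        Real.logb_self_eq_one (by norm_num)] at h2
      rw [hl]
      linarith
  have hlΛ : l ≤ Real.logb 2 Λ := by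
    rcases Nat.eq_zero_or_pos L with h | h
    · rw [hl, h]; simp; linarith
    · exact Real.logb_le_logb_of_le (by norm_num) (by exact_mod_cast h) (by exact_mod_cast hLΛ)
  -- the parameter B
  have hex : ∃ B : ℕ, 36 * K * Λ ≤ B ^ 31 * G := by
    refine ⟨36 * K * Λ, ?_⟩
    calc 36 * K * Λ = (36 * K * Λ) ^ 1 * 1 := by ring
      _ ≤ (36 * K * Λ) ^ 31 * G := Nat.mul_le_mul (Nat.pow_le_pow_right (by positivity) (by norm_num)) hG1
  set B : ℕ := Nat.find hex with hB
  have hB1 : 36 * K * Λ ≤ B ^ 31 * G := Nat.find_spec hex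
  have hKΛ : Λ ≤ K * Λ := Nat.le_mul_of_pos_left _ hK1
  have hB2 : 2 ≤ B := by
    by_contra hcon
    have h1 : B ^ 31 ≤ 1 := by
      have : B ≤ 1 := by omega
      calc B ^ 31 ≤ 1 ^ 31 := Nat.pow_le_pow_left this 31
        _ = 1 := by norm_num
    have h2 : B ^ 31 * G ≤ 1 * G := Nat.mul_le_mul_right _ h1
    have h3 : 36 * K * Λ = 36 * (K * Λ) := by ring
    omega
  have hB3 : B ^ 31 * G ≤ 2 ^ 31 * (36 * K * Λ) := by
    have h1 : (B - 1) ^ 31 * G < 36 * K * Λ := by
      have := Nat.find_min hex (m := B - 1) (by omega)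
      omega
    have h2 : B ≤ 2 * (B - 1) := by omega
    calc B ^ 31 * G ≤ (2 * (B - 1)) ^ 31 * G := Nat.mul_le_mul_right _ (Nat.pow_le_pow_left h2 31)
      _ = 2 ^ 31 * ((B - 1) ^ 31 * G) := by rw [mul_pow]; ring
      _ ≤ 2 ^ 31 * (36 * K * Λ) := Nat.mul_le_mul_left _ h1.le
  have hBR : (2 : ℝ) ≤ B := by exact_mod_cast hB2
  have hlB : 31 * Real.logb 2 B + Real.logb 2 G ≤ 31 + (6 + Real.logb 2 K + Real.logb 2 Λ) := by
    have h1 : (B : ℝ) ^ 31 * G ≤ 2 ^ 31 * (2 ^ 6 * K * Λ) := by
      have h2 : (B : ℝ) ^ 31 * G ≤ 2 ^ 31 * (36 * K * Λ) := by exact_mod_cast hB3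
      refine h2.trans ?_
      gcongr
      norm_num
    have h3 := Real.logb_le_logb_of_le (b := 2) (by norm_num) (by positivity) h1
    rw [Real.logb_mul (by positivity) (by positivity), Real.logb_mul (by positivity) (by positivity),
      Real.logb_mul (by positivity) (by positivity), Real.logb_mul (by positivity) (by positivity),
      Real.logb_pow, Real.logb_pow, Real.logb_pow, Real.logb_self_eq_one (by norm_num)] at h3
    push_cast at h3
    linarith
  by_cases hcase : K * B < G
  swap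
  · -- the inner function is small
    push Not at hcase
    have h1 : Real.logb 2 G ≤ Real.logb 2 K + Real.logb 2 B := by
      have h2 : (G : ℝ) ≤ K * B := by exact_mod_cast hcase
      have h3 := Real.logb_le_logb_of_le (b := 2) (by norm_num) (by positivity) h2
      rwa [Real.logb_mul (by positivity) (by positivity)] at h3
    have h4 : l ^ 2 / (8 * m) ≤ l / 4 := by
      rw [div_le_iff₀ (by positivity)]
      have h5 : Real.logb 2 m ≤ m := by
        rw [Real.logb_le_iff_le_rpow (by norm_num) (by linarith), Real.rpow_natCast]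
        exact_mod_cast (Nat.lt_two_pow_self).le
      nlinarith
    linarith
  · -- the main case
    set w : ℕ := (G - 1) / (K * B) with hw
    have hKB : 0 < K * B := by positivity
    have hw1 : 1 ≤ w := (Nat.one_le_div_iff hKB).2 (by omega)
    have hw2 : K * B * w < G := by
      have : K * B * w ≤ G - 1 := Nat.mul_div_le _ _
      omega
    have hw3 : G ≤ 2 * w * (K * B) := by
      have h1 := Nat.lt_div_mul_add (a := G - 1) hKB
      rw [← hw] at h1
      have h2 : K * B ≤ w * (K * B) := Nat.le_mul_of_pos_left _ hw1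
      have h3 : 2 * w * (K * B) = 2 * (w * (K * B)) := by ring
      omega
    have hwR : (1 : ℝ) ≤ w := by exact_mod_cast hw1
    set τ : ℝ := 1 / (8 * m * B) with hτ
    have hτ0 : 0 < τ := by positivity
    have h8 : 8 * (m : ℝ) * τ = 1 / B := by rw [hτ]; field_simp
    have hτ1 : 8 * (m : ℝ) * τ ≤ 1 := by
      rw [h8, div_le_one (by positivity)]
      linarith
    have hτ2 : τ ≤ 1 := by nlinarith
    obtain ⟨x, y, hx, hy⟩ := hg'
    obtain ⟨μ, hμ1, hμ2, hμ3, hμ4⟩ := exists_mhard (s := w) hm g ⟨x, hx⟩ ⟨y, hy⟩ hτ0 hτ2 (by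
      intro t ht hcomp
      have h1 := (hcg _).1 hcomp
      have h2 : (t : ℝ) ≤ 8 * m * B := by
        have h3 : (t : ℝ) = t * τ * (8 * m * B) := by rw [hτ]; field_simp
        rw [h3]
        calc t * τ * (8 * m * B) ≤ 1 * (8 * m * B) :=
              mul_le_mul_of_nonneg_right ht (by positivity)
          _ = 8 * m * B := by ring
      have h3 : t ≤ 8 * m * B := by exact_mod_cast h2
      have h4 : 288 ^ 6 * 216 * (m ^ 6 * n ^ 3 * (t * w)) ≤ K * B * w := by
        calc 288 ^ 6 * 216 * (m ^ 6 * n ^ 3 * (t * w))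
            ≤ 288 ^ 6 * 216 * (m ^ 6 * n ^ 3 * (8 * m * B * w)) := by gcongr
          _ = K * B * w := by rw [hK]; unfold KM; ring
      omega)
    have hμ : MHard m w τ g μ := ⟨hμ1, hμ2, hμ3, hμ4⟩
    have hgw : ¬ MComp w g := by
      intro h
      have h1 := (hcg _).1 h
      have h2 : w ≤ K * B * w := Nat.le_mul_of_pos_left _ hKB
      omega
    obtain ⟨N, hN, hwN, hmain⟩ := main_explicitM hm hw1 hτ0 hτ1 hgm hμ hgw hfm hf' hF1 hF0
    have hNR : (1 : ℝ) ≤ N := by exact_mod_cast hN
    rw [← hΛ] at hwN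
    -- the condition for dropping 31 rows
    have hcond : (8 * m * τ) ^ 31 * (3 * m * τ) ≤ 1 / (4 * N) := by
      have h3 : 3 * (m : ℝ) * τ = 3 / (8 * B) := by rw [hτ]; field_simp
      rw [h8, h3]
      have h4 : 3 * N ≤ B ^ 32 := by
        have h5 : w * (3 * N) ≤ w * B ^ 32 := by
          have h6 : K * (w * (36 * N)) ≤ K * (w * (12 * B ^ 32)) := by
            calc K * (w * (36 * N)) = 36 * K * (w * N) := by ring
              _ ≤ 36 * K * (6 * Λ) := Nat.mul_le_mul_left _ hwN
              _ = 6 * (36 * K * Λ) := by ring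
              _ ≤ 6 * (B ^ 31 * G) := Nat.mul_le_mul_left _ hB1
              _ ≤ 6 * (B ^ 31 * (2 * w * (K * B))) :=
                Nat.mul_le_mul_left _ (Nat.mul_le_mul_left _ hw3)
              _ = K * (w * (12 * B ^ 32)) := by ring
          have h7 := Nat.le_of_mul_le_mul_left h6 hK1
          nlinarith
        exact Nat.le_of_mul_le_mul_left h5 hw1
      have h5 : 3 * (N : ℝ) ≤ B ^ 32 := by exact_mod_cast h4
      have h6 : (1 / (B : ℝ)) ^ 31 * (3 / (8 * B)) = 3 / (8 * B ^ 32) := by
        field_simp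
      rw [h6, div_le_div_iff₀ (by positivity) (by positivity)]
      nlinarith
    -- the number of pieces
    have hk : Real.logb 2 N + Real.logb 2 G ≤
        4 + (Real.logb 2 K + Real.logb 2 B) + Real.logb 2 Λ := by
      have h1 : (N : ℝ) * G ≤ 2 ^ 4 * (K * B) * Λ := by
        have h2 : N * G ≤ 12 * (K * B) * Λ := by
          calc N * G ≤ N * (2 * w * (K * B)) := Nat.mul_le_mul_left _ hw3
            _ = 2 * (K * B) * (w * N) := by ring
            _ ≤ 2 * (K * B) * (6 * Λ) := Nat.mul_le_mul_left _ hwN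
            _ = 12 * (K * B) * Λ := by ring
        have h3 : (N : ℝ) * G ≤ 12 * (K * B) * Λ := by exact_mod_cast h2
        refine h3.trans ?_
        gcongr
        norm_num
      have h3 := Real.logb_le_logb_of_le (b := 2) (by norm_num) (by positivity) h1
      rw [Real.logb_mul (by positivity) (by positivity), Real.logb_mul (by positivity) (by positivity),
        Real.logb_mul (by positivity) (by positivity), Real.logb_mul (by positivity) (by positivity),
        Real.logb_pow, Real.logb_self_eq_one (by norm_num)] at h3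
      push_cast at h3
      linarith
    set k : ℝ := Real.logb 2 N with hkdef
    have hk0 : 0 ≤ k := Real.logb_nonneg (by norm_num) hNR
    set X : ℝ := D + (15 * Real.logb 2 m + 3 * Real.logb 2 n + 87) with hX
    have hX0 : 0 ≤ X := by positivity
    have hkX : k + (8 * Real.logb 2 m + 22) ≤ 32 / 31 * X := by
      rw [hX]
      linarith
    have hfin := final_num3 hm hl0 hl2 hX0 (by
      intro θ hθ hθ1
      rcases Nat.eq_zero_or_pos L with h | h
      · have h1 : l = 0 := by rw [hl, h]; simp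
        have h2 : 0 ≤ Real.logb 2 (1 + θ) := Real.logb_nonneg (by norm_num) (by linarith)
        rw [h1]
        positivity
      · have h0 := hmain 31 hcond θ hθ (by linarith)
        have h1 := log_sizeM (L := L) hm hN hθ hθ1 h h0
        rw [← hl, ← hkdef] at h1
        have h2 : (0 : ℝ) < 3 / 2 + 1 / θ := by positivity
        have h3 := mul_le_mul_of_nonneg_left hkX h2.le
        have h4 : 32 / 31 * (3 / 2 + 1 / θ) * X = (3 / 2 + 1 / θ) * (32 / 31 * X) := by ring
        rw [h4]
        linarith)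
    rw [hX, hD] at hfin
    linarith

end Pool.Agent.H.MP_027d00_lc.Monot
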