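import Pool.Agent.H.MP_027d00_lc.ucomp.Hard
import Pool.Agent.H.MP_027d00_lc.mono.Amp

/-!
# Hard distributions for monotone formulas from the minimax theorem
-/

set_option autoImplicit false

open Finset

namespace Pool.Agent.H.MP_027d00_lc.Monot

open UComp (matrix_game)

/-- Hard distributions on `g⁻¹(1)` and `g⁻¹(0)`. -/
theorem exists_mhard {n m s : ℕ} (hm : 1 ≤ m) (g : (Fin n → Bool) → Bool)
    (hg1 : ∃ x, g x = true) (hg0 : ∃ x, g x = false) {τ : ℝ} (hτ : 0 < τ) (hτ1 : τ ≤ 1)
    (hL : ∀ t : ℕ, (t : ℝ) * τ ≤ 1 → ¬ MComp (288 ^ 6 * 216 * (m ^ 6 * n ^ 3 * (t * s))) g) :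
    ∃ μ : Bool → (Fin n → Bool) → ℝ, (∀ b x, 0 ≤ μ b x) ∧ (∀ b, ∑ x, μ b x = 1) ∧
      (∀ b x, μ b x ≠ 0 → g x = b) ∧
      ∀ h : (Fin n → Bool) → Bool, MComp s h →
        ∑ x, μ true x * ind (h x) ≤ (1 + 1 / (8 * (m : ℝ))) * ∑ x, μ false x * ind (h x) + τ := by
  classical
  have : Nonempty ({x // g x = true} × {y // g y = false}) := by
    obtain ⟨x, hx⟩ := hg1
    obtain ⟨y, hy⟩ := hg0
    exact ⟨(⟨x, hx⟩, ⟨y, hy⟩)⟩
  have : Nonempty {h : (Fin n → Bool) → Bool // MComp s h} := ⟨⟨fun _ => false, MComp.const s false⟩⟩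
  have : Fintype {h : (Fin n → Bool) → Bool // MComp s h} := Fintype.ofFinite _
  rcases matrix_game (fun (i : {x // g x = true} × {y // g y = false})
    (h : {h : (Fin n → Bool) → Bool // MComp s h}) =>
      ind (h.1 i.1.1) - (1 + 1 / (8 * (m : ℝ))) * ind (h.1 i.2.1)) τ with
    ⟨q, hq0, hq1, hq⟩ | ⟨p, hp0, hp1, hp⟩
  · exfalso
    have hR : MRnd s (fun x => ∑ h : {h : (Fin n → Bool) → Bool // MComp s h}, q h * ind (h.1 x)) :=
      ⟨{h : (Fin n → Bool) → Bool // MComp s h}, inferInstance, q, fun h => h.1, hq0, hq1,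
        fun h => h.2, fun x => rfl⟩
    obtain ⟨t, ht, hc⟩ := hR.amplify hm g hg1 hg0 hτ hτ1 (by
      intro x y hx hy
      have h1 := hq (⟨x, hx⟩, ⟨y, hy⟩)
      simp only at h1
      have h2 : ∑ h : {h : (Fin n → Bool) → Bool // MComp s h},
          q h * (ind (h.1 x) - (1 + 1 / (8 * (m : ℝ))) * ind (h.1 y)) =
          ∑ h : {h : (Fin n → Bool) → Bool // MComp s h}, q h * ind (h.1 x) -
            (1 + 1 / (8 * (m : ℝ))) *
              ∑ h : {h : (Fin n → Bool) → Bool // MComp s h}, q h * ind (h.1 y) := by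
        rw [Finset.mul_sum, ← Finset.sum_sub_distrib]
        refine Finset.sum_congr rfl fun h _ => by ring
      rw [h2] at h1
      linarith)
    exact hL t ht hc
  · set pt : Bool → ({x // g x = true} × {y // g y = false}) → (Fin n → Bool) :=
      fun b i => if b = true then i.1.1 else i.2.1 with hpt
    have hpt' : ∀ b i, g (pt b i) = b := by
      intro b i
      cases b with
      | true => simpa [hpt] using i.1.2
      | false => simpa [hpt] using i.2.2
    set μ : Bool → (Fin n → Bool) → ℝ := fun b x => ∑ i, if pt b i = x then p i else 0 with hμ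
    have hE : ∀ (b : Bool) (G : (Fin n → Bool) → ℝ), ∑ x, μ b x * G x = ∑ i, p i * G (pt b i) := by
      intro b G
      simp only [hμ, Finset.sum_mul]
      rw [Finset.sum_comm]
      refine Finset.sum_congr rfl fun i _ => ?_
      simp only [ite_mul, zero_mul, Finset.sum_ite_eq, Finset.mem_univ, if_true]
    refine ⟨μ, ?_, ?_, ?_, ?_⟩
    · intro b x
      exact Finset.sum_nonneg fun i _ => by split_ifs; exacts [hp0 i, le_rfl]
    · intro b
      have := hE b (fun _ => 1)
      simpa [hp1] using this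
    · intro b x hx
      obtain ⟨i, _, hi⟩ := Finset.exists_ne_zero_of_sum_ne_zero hx
      have : pt b i = x := by
        by_contra hne
        exact hi (by simp [hne])
      rw [← this]
      exact hpt' b i
    · intro h hh
      rw [hE, hE]
      have h1 := hp ⟨h, hh⟩
      simp only at h1
      have h2 : ∑ i, p i * (ind (h i.1.1) - (1 + 1 / (8 * (m : ℝ))) * ind (h i.2.1)) =
          ∑ i, p i * ind (h (pt true i)) - (1 + 1 / (8 * (m : ℝ))) *
            ∑ i, p i * ind (h (pt false i)) := by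
        rw [Finset.mul_sum, ← Finset.sum_sub_distrib]
        refine Finset.sum_congr rfl fun i _ => by simp only [hpt]; simp; ring
      rw [h2] at h1
      linarith

end Pool.Agent.H.MP_027d00_lc.Monot
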