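import Pool.Agent.H.MP_027d00_lc.mono.Amp

/-!
# Separation of sets of vectors by monotone formulas
-/

set_option autoImplicit false

open Finset

namespace Pool.Agent.H.MP_027d00_lc.Monot

/-- There is a monotone formula with at most `s` leaves that is true on `A` and false on `B`. -/
def SepM {m : ℕ} (s : ℕ) (A B : Finset (Fin m → Bool)) : Prop :=
  ∃ h : (Fin m → Bool) → Bool, MComp s h ∧ (∀ a ∈ A, h a = true) ∧ ∀ b ∈ B, h b = false

theorem SepM.mono {m s t : ℕ} {A B A' B' : Finset (Fin m → Bool)} (hs : s ≤ t) (hA : A' ⊆ A)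
    (hB : B' ⊆ B) (h : SepM s A B) : SepM t A' B' := by
  obtain ⟨f, hf, h1, h2⟩ := h
  exact ⟨f, hf.mono hs, fun X hX => h1 X (hA hX), fun X hX => h2 X (hB hX)⟩

theorem SepM.union_left {m s t : ℕ} {A A' B : Finset (Fin m → Bool)} (h : SepM s A B)
    (h' : SepM t A' B) : SepM (s + t) (A ∪ A') B := by
  obtain ⟨f, hf, h1, h2⟩ := h
  obtain ⟨f', hf', h1', h2'⟩ := h'
  refine ⟨fun X => f X || f' X, hf.or hf', ?_, ?_⟩
  · intro X hX
    rcases Finset.mem_union.1 hX with h | h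
    · simp [h1 X h]
    · simp [h1' X h]
  · intro X hX
    simp [h2 X hX, h2' X hX]

theorem SepM.union_right {m s t : ℕ} {A B B' : Finset (Fin m → Bool)} (h : SepM s A B)
    (h' : SepM t A B') : SepM (s + t) A (B ∪ B') := by
  obtain ⟨f, hf, h1, h2⟩ := h
  obtain ⟨f', hf', h1', h2'⟩ := h'
  refine ⟨fun X => f X && f' X, hf.and hf', ?_, ?_⟩
  · intro X hX
    simp [h1 X hX, h1' X hX]
  · intro X hX
    rcases Finset.mem_union.1 hX with h | h
    · simp [h2 X h]
    · simp [h2' X h]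

theorem SepM.empty_left {m : ℕ} (s : ℕ) (B : Finset (Fin m → Bool)) : SepM s ∅ B :=
  ⟨fun _ => false, MComp.const s false, fun X hX => absurd hX (Finset.notMem_empty X),
    fun _ _ => rfl⟩

theorem SepM.empty_right {m : ℕ} (s : ℕ) (A : Finset (Fin m → Bool)) : SepM s A ∅ :=
  ⟨fun _ => true, MComp.const s true, fun _ _ => rfl,
    fun X hX => absurd hX (Finset.notMem_empty X)⟩

/-- The complement of a vector. -/
def flp {m : ℕ} (x : Fin m → Bool) : Fin m → Bool := fun i => !(x i)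

theorem flp_flp {m : ℕ} (x : Fin m → Bool) : flp (flp x) = x := by
  funext i; simp [flp]

/-- Duality. -/
theorem SepM.dual {m s : ℕ} {A B : Finset (Fin m → Bool)}
    (h : SepM s (B.image flp) (A.image flp)) : SepM s A B := by
  obtain ⟨f, hf, h1, h2⟩ := h
  refine ⟨fun x => !(f (fun v => !(x v))), hf.dualize, ?_, ?_⟩
  · intro a ha
    have := h2 (flp a) (Finset.mem_image_of_mem _ ha)
    have e : f (fun v => !(a v)) = false := this
    simp [e]
  · intro b hb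
    have := h1 (flp b) (Finset.mem_image_of_mem _ hb)
    have e : f (fun v => !(b v)) = true := this
    simp [e]

theorem sepM_biUnion_left {m K : ℕ} {ι : Type} (𝒥 : Finset ι) (A : ι → Finset (Fin m → Bool))
    (B : Finset (Fin m → Bool)) (h : ∀ J ∈ 𝒥, SepM K (A J) B) :
    SepM (𝒥.card * K) (𝒥.biUnion A) B := by
  classical
  induction 𝒥 using Finset.induction_on with
  | empty => simpa using SepM.empty_left 0 B
  | insert J 𝒥 hJ ih =>
    rw [Finset.biUnion_insert, Finset.card_insert_of_notMem hJ]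
    have h1 := (h J (Finset.mem_insert_self _ _)).union_left
      (ih (fun J' hJ' => h J' (Finset.mem_insert_of_mem hJ')))
    exact h1.mono (by ring_nf; exact le_rfl) (Finset.Subset.refl _) (Finset.Subset.refl _)

/-- Derandomisation: adapt the proof of `UComp.MRnd.derand` (some `f i` makes no error, as the
average number of errors is less than `1`). -/
theorem derandP {m s : ℕ} {Φ : (Fin m → Bool) → ℝ} (h : MRnd s Φ)
    (A B : Finset (Fin m → Bool))
    (herr : ∑ x ∈ A, (1 - Φ x) + ∑ x ∈ B, Φ x < 1) : SepM s A B := by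
  obtain ⟨ι, _, p, f, hp, hs, hf, hA⟩ := h
  by_contra hcon
  have h1 : ∀ i, 1 ≤ ∑ x ∈ A, (1 - ind (f i x)) + ∑ x ∈ B, ind (f i x) := by
    intro i
    have hA0 : ∀ x, 0 ≤ 1 - ind (f i x) := fun x => by linarith [ind_le_one (f i x)]
    have hB0 : ∀ x, 0 ≤ ind (f i x) := fun x => ind_nonneg (f i x)
    have hsA : 0 ≤ ∑ x ∈ A, (1 - ind (f i x)) := Finset.sum_nonneg (fun x _ => hA0 x)
    have hsB : 0 ≤ ∑ x ∈ B, ind (f i x) := Finset.sum_nonneg (fun x _ => hB0 x)
    by_cases hAll : ∀ a ∈ A, f i a = true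
    · have hBx : ∃ b ∈ B, f i b = true := by
        by_contra hc
        push Not at hc
        exact hcon ⟨f i, hf i, hAll, fun b hb => by simpa using hc b hb⟩
      obtain ⟨b, hb, hb'⟩ := hBx
      have h2 : ind (f i b) ≤ ∑ x ∈ B, ind (f i x) :=
        Finset.single_le_sum (f := fun x => ind (f i x)) (fun k _ => hB0 k) hb
      rw [hb', ind_true] at h2
      linarith
    · push Not at hAll
      obtain ⟨a, ha, ha'⟩ := hAll
      have ha'' : f i a = false := by simpa using ha'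
      have h2 : 1 - ind (f i a) ≤ ∑ x ∈ A, (1 - ind (f i x)) :=
        Finset.single_le_sum (f := fun x => 1 - ind (f i x)) (fun k _ => hA0 k) ha
      rw [ha'', ind_false] at h2
      linarith
  have h2 : (1 : ℝ) ≤ ∑ x ∈ A, (1 - Φ x) + ∑ x ∈ B, Φ x := by
    calc (1 : ℝ) = ∑ i, p i * 1 := by simp [hs]
      _ ≤ ∑ i, p i * (∑ x ∈ A, (1 - ind (f i x)) + ∑ x ∈ B, ind (f i x)) :=
        Finset.sum_le_sum (fun i _ => mul_le_mul_of_nonneg_left (h1 i) (hp i))
      _ = ∑ x ∈ A, ∑ i, p i * (1 - ind (f i x)) + ∑ x ∈ B, ∑ i, p i * ind (f i x) := by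
        rw [Finset.sum_comm (s := A), Finset.sum_comm (s := B), ← Finset.sum_add_distrib]
        refine Finset.sum_congr rfl fun i _ => ?_
        rw [mul_add, Finset.mul_sum, Finset.mul_sum]
      _ = ∑ x ∈ A, (1 - Φ x) + ∑ x ∈ B, Φ x := by
        congr 1
        · refine Finset.sum_congr rfl fun x _ => ?_
          have : ∀ i, p i * (1 - ind (f i x)) = p i - p i * ind (f i x) := fun i => by ring
          rw [Finset.sum_congr rfl (fun i _ => this i), Finset.sum_sub_distrib, hs, ← hA]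
        · refine Finset.sum_congr rfl fun x _ => ?_
          rw [← hA]
  linarith

/-- The size of a set of points of the cube, times the error. -/
private theorem card_err {m : ℕ} (A : Finset (Fin m → Bool)) (F : (Fin m → Bool) → ℝ)
    (h : ∀ x ∈ A, F x ≤ (1 / 3) * (1 / 2) ^ m) : ∑ x ∈ A, F x ≤ 1 / 3 := by
  calc ∑ x ∈ A, F x ≤ ∑ _x ∈ A, (1 / 3) * (1 / 2 : ℝ) ^ m := Finset.sum_le_sum h
    _ ≤ ∑ _x : Fin m → Bool, (1 / 3) * (1 / 2 : ℝ) ^ m :=
        Finset.sum_le_sum_of_subset_of_nonneg (Finset.subset_univ _)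
          (fun _ _ _ => by positivity)
    _ = 1 / 3 := by
        rw [Finset.sum_const, Finset.card_univ, Fintype.card_fun, Fintype.card_bool,
          Fintype.card_fin, nsmul_eq_mul]
        push_cast
        rw [mul_left_comm, ← mul_pow]
        norm_num

/-- Amplification.

Proof: let `t = ⌈2 / p⌉₊`, so `t ≤ 2 / p + 1 ≤ 3 / p`. By `MRnd.orPow`, `Ψ x = 1 - (1 - Φ x)^t` is
`MRnd (t * s)`. On `A`: `(1 - Φ a)^t ≤ (1 - p)^t ≤ exp (- p t) ≤ exp (-2) ≤ 1/4`, so
`Ψ a ≥ 3/4`. On `B`: `Ψ b ≤ t * δ ≤ 3 δ / p ≤ 1/4` (Bernoulli, `one_add_mul_le_pow`; note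
`0 ≤ Φ b ≤ δ`). Take `k` of `exists_k m hm` (`3 m ≤ 2^k`, `5^k ≤ (6m)^3`); then
`maj^[k] (Ψ x)` is `MRnd (5^k * (t * s))` by `MRnd.maj_iter`, and as in the proof of `MRnd.boost`
(`maj_iter_fast`, `maj_iter_compl`) its error is at most `(1/3) (1/2)^m` at each point of `A` and
of `B`; so the total error is at most `2 * (1/3) < 1` (at most `2^m` points in `A` and in `B`
each). Use `derandP`; `216 m^3 = (6m)^3`. -/
theorem amp {m s : ℕ} (hm : 1 ≤ m) {Φ : (Fin m → Bool) → ℝ} (h : MRnd s Φ)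
    (A B : Finset (Fin m → Bool)) {p δ : ℝ} (hp : 0 < p) (hp1 : p ≤ 1) (hδ : 12 * δ ≤ p)
    (hA : ∀ a ∈ A, p ≤ Φ a) (hB : ∀ b ∈ B, Φ b ≤ δ) :
    ∃ t : ℕ, (t : ℝ) * p ≤ 3 ∧ SepM (216 * m ^ 3 * (t * s)) A B := by
  obtain ⟨t, ht⟩ : ∃ t : ℕ, t = ⌈2 / p⌉₊ := ⟨_, rfl⟩
  have ht1 : 2 / p ≤ (t : ℝ) := by rw [ht]; exact Nat.le_ceil _
  have ht2 : (t : ℝ) < 2 / p + 1 := by
    rw [ht]; exact Nat.ceil_lt_add_one (by positivity)
  have ht3 : 2 ≤ (t : ℝ) * p := by
    rw [div_le_iff₀ hp] at ht1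
    exact ht1
  have ht4 : (t : ℝ) * p ≤ 3 := by
    have : (t : ℝ) * p ≤ (2 / p + 1) * p := mul_le_mul_of_nonneg_right ht2.le hp.le
    have e : (2 / p + 1) * p = 2 + p := by field_simp
    linarith
  refine ⟨t, ht4, ?_⟩
  obtain ⟨k, hk, hk'⟩ := exists_k m hm
  have hΨ := h.orPow t
  have hit := hΨ.maj_iter k
  have hA' : ∀ a ∈ A, 3 / 4 ≤ 1 - (1 - Φ a) ^ t := by
    intro a ha
    have h1 : (1 - Φ a) ^ t ≤ (1 - p) ^ t :=
      pow_le_pow_left₀ (by linarith [(h.mem a).2]) (by linarith [hA a ha]) t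
    have h2 : (1 - p) ^ t ≤ Real.exp (-p) ^ t :=
      pow_le_pow_left₀ (by linarith) (by linarith [Real.add_one_le_exp (-p)]) t
    have h3 : Real.exp (-p) ^ t ≤ Real.exp (-2) := by
      rw [← Real.exp_nat_mul]
      apply Real.exp_le_exp.2
      linarith
    have h4 : Real.exp (-2) ≤ 1 / 4 := by
      have h5 : (2 : ℝ) ≤ Real.exp 1 := by linarith [Real.add_one_le_exp (1 : ℝ)]
      have h6 : (4 : ℝ) ≤ Real.exp 2 := by
        have : Real.exp 2 = Real.exp 1 * Real.exp 1 := by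
          rw [← Real.exp_add]; norm_num
        rw [this]
        nlinarith
      rw [Real.exp_neg, ← one_div]
      exact one_div_le_one_div_of_le (by norm_num) h6
    linarith
  have hB' : ∀ b ∈ B, 1 - (1 - Φ b) ^ t ≤ 1 / 4 := by
    intro b hb
    have h1 : 1 + (t : ℝ) * (-Φ b) ≤ (1 + -Φ b) ^ t :=
      one_add_mul_le_pow (by linarith [(h.mem b).2]) t
    have h2 : (1 + -Φ b) ^ t = (1 - Φ b) ^ t := by ring
    rw [h2] at h1
    have h3 : (t : ℝ) * Φ b ≤ t * δ := mul_le_mul_of_nonneg_left (hB b hb) (Nat.cast_nonneg _)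
    have h4 : (t : ℝ) * (12 * δ) ≤ t * p := mul_le_mul_of_nonneg_left hδ (Nat.cast_nonneg _)
    linarith
  have key : ∀ q : ℝ, 3 / 4 ≤ q → q ≤ 1 →
      1 - MP_027d00_lc.maj^[k] q ≤ (1 / 3) * (1 / 2) ^ m := by
    intro q hq hq1
    have g3 := maj_iter_fast (p := q) hq hq1 k
    have g4 : ((3 : ℝ) / 4) ^ (2 ^ k) ≤ (1 / 2) ^ m := by
      calc ((3 : ℝ) / 4) ^ (2 ^ k) ≤ (3 / 4) ^ (3 * m) :=
            pow_le_pow_of_le_one (by norm_num) (by norm_num) hk
        _ = ((3 / 4) ^ 3) ^ m := by rw [pow_mul]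
        _ ≤ (1 / 2) ^ m := pow_le_pow_left₀ (by norm_num) (by norm_num) m
    linarith
  have e1 : ∑ x ∈ A, (1 - MP_027d00_lc.maj^[k] (1 - (1 - Φ x) ^ t)) ≤ 1 / 3 :=
    card_err A _ (fun x hx => key _ (hA' x hx) (hΨ.mem x).2)
  have e2 : ∑ x ∈ B, MP_027d00_lc.maj^[k] (1 - (1 - Φ x) ^ t) ≤ 1 / 3 := by
    refine card_err B _ (fun x hx => ?_)
    have h1 := key (1 - (1 - (1 - Φ x) ^ t)) (by linarith [hB' x hx])
      (by linarith [(hΨ.mem x).1])
    rw [maj_iter_compl] at h1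
    linarith
  have h5 := derandP hit A B (by linarith)
  refine h5.mono ?_ (Finset.Subset.refl _) (Finset.Subset.refl _)
  calc 5 ^ k * (t * s) ≤ (6 * m) ^ 3 * (t * s) := Nat.mul_le_mul_right _ hk'
    _ = 216 * m ^ 3 * (t * s) := by ring

end Pool.Agent.H.MP_027d00_lc.Monot
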