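import Pool.Agent.H.MP_027d00_lc.mono.SepM
import Pool.Agent.H.MP_027d00_lc.strong.Sep3

/-!
# Separation from a family of conflicting sets by a monotone formula
-/

set_option autoImplicit false

open Finset

namespace Pool.Agent.H.MP_027d00_lc.Monot

open UComp (Mat)
open SComp (mea mea_mono mea_univ TTw wtc wtc_cost TTw_le rhw_tail greedy mk patS patS_image_card)

/-- Rejecting the vectors below one of the patterns. -/
theorem mcomp_match {m : ℕ} (P : Finset (Fin m → Option Bool)) :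
    MComp (P.card * m)
      (fun x : Fin m → Bool => decide (∀ π ∈ P, decide (∃ i ∈ univ.filter
        (fun i => π i = some false), x i = true) = true)) := by
  classical
  refine (MComp.finset_and (s := m) P (fun π x => decide (∃ i ∈ univ.filter
    (fun i => π i = some false), x i = true)) ?_).congr (fun x => decide_eq_decide.2 Iff.rfl)
  intro π _
  have h2 := MComp.finset_or (V := Fin m) (s := 1) (univ.filter (fun i => π i = some false))
    (fun i x => x i) (fun i _ => MComp.var i)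
  refine (h2.congr (fun x => decide_eq_decide.2 Iff.rfl)).mono (t := m) ?_
  rw [mul_one]
  exact (Finset.card_le_univ _).trans (by simp)

/-- The separation lemma. -/
theorem unit_sepM {m n : ℕ} (hm : 1 ≤ m) {θ : ℝ} (hθ : 0 < θ) (hθ1 : θ ≤ 1 / 2)
    {ν : (Fin n → Bool) → ℝ} (hν : ∀ x, 0 ≤ ν x) (hν1 : ∑ x, ν x = 1)
    (A B : Finset (Fin m → Bool)) (𝒳 𝒴 : (Fin m → Bool) → Finset (Mat m n)) (S₀ : Finset (Fin m))
    {p q : ℝ} (hp : 0 < p) (hq : 0 < q) (hX : ∀ a ∈ A, p ≤ mea ν (𝒳 a))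
    (hY : ∀ b ∈ B, q ≤ mea ν (𝒴 b))
    (hc : ∀ a ∈ A, ∀ b ∈ B, ∀ X ∈ 𝒳 a, ∀ Y ∈ 𝒴 b,
      ∃ i, a i = true ∧ b i = false ∧ (i ∉ S₀ → X i ≠ Y i)) :
    ∃ t s : ℕ, (t : ℝ) * p ≤ 3 ∧
      (s : ℝ) ≤ (1 + θ) ^ m / (p / 12 * q) ^ (1 / θ) * (1 + m * Real.log 2) ∧
      SepM (216 * m ^ 3 * (t * (2 ^ S₀.card * s * m))) A B := by
  classical
  have hη0 : 0 < (p / 12 * q) ^ (1 / θ) := Real.rpow_pos_of_pos (by positivity) _
  have hlog2 : 0 < Real.log 2 := Real.log_pos (by norm_num)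
  have hRHS : 0 ≤ (1 + θ) ^ m / (p / 12 * q) ^ (1 / θ) * (1 + m * Real.log 2) := by
    positivity
  rcases A.eq_empty_or_nonempty with hA | ⟨a₀, ha₀⟩
  · refine ⟨0, 0, by norm_num, by simpa using hRHS, ?_⟩
    rw [hA]
    exact SepM.empty_left _ _
  have hp1 : p ≤ 1 := by
    have h1 := hX a₀ ha₀
    have h2 : mea ν (𝒳 a₀) ≤ 1 := by
      rw [← mea_univ hν1 m]
      exact mea_mono hν (Finset.subset_univ _)
    exact h1.trans h2
  set η : ℝ := (p / 12 * q) ^ (1 / θ) with hη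
  have hwtc0 : ∀ c : Fin m → Bool, 0 ≤ wtc θ c := by
    intro c
    unfold wtc
    refine Finset.prod_nonneg fun i _ => ?_
    split_ifs <;> linarith
  -- the covering, for each `Z`
  have hcov : ∀ Z : Mat m n, ∃ J : Finset (Fin m → Bool),
      (∀ b ∈ B.filter (fun b => ¬ TTw θ ν (𝒴 b) Z < η),
        ∃ c ∈ J, ∃ Y ∈ 𝒴 b, ∀ i, c i = false → Y i = Z i) ∧
      ∑ c ∈ J, (2 : ℝ) ^ (mk c).card ≤ (1 + θ) ^ m / η * (1 + m * Real.log 2) := by
    intro Z
    obtain ⟨J, hJ1, hJ2⟩ := greedy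
      (R := fun (c : Fin m → Bool) (b : Fin m → Bool) => ∃ Y ∈ 𝒴 b, ∀ i, c i = false → Y i = Z i)
      (π := fun c => wtc θ c) (c := fun c => (2 : ℝ) ^ (mk c).card) hwtc0
      (fun c => by positivity) (K := (1 + θ) ^ m) (η := η)
      (le_of_eq (wtc_cost (θ := θ) m)) hη0 (B.filter (fun b => ¬ TTw θ ν (𝒴 b) Z < η)) (by
        intro b hb
        have h1 := not_lt.1 (Finset.mem_filter.1 hb).2
        exact h1.trans (TTw_le hθ hθ1 hν hν1 (𝒴 b) Z))
    refine ⟨J, hJ1, hJ2.trans (mul_le_mul_of_nonneg_left ?_ (by positivity))⟩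
    set U := B.filter (fun b => ¬ TTw θ ν (𝒴 b) Z < η) with hU
    have hUlog : Real.log U.card ≤ m * Real.log 2 := by
      rcases Nat.eq_zero_or_pos U.card with h | h
      · rw [h]; simp only [Nat.cast_zero, Real.log_zero]; positivity
      · have h1 : (U.card : ℝ) ≤ 2 ^ m := by
          have h2 : U.card ≤ 2 ^ m := by
            refine (Finset.card_le_univ _).trans ?_
            simp
          exact_mod_cast h2
        have h3 := Real.log_le_log (by exact_mod_cast h) h1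
        rw [Real.log_pow] at h3
        exact h3
    linarith
  choose J hJ1 hJ2 using hcov
  set s : ℕ := ⌊(1 + θ) ^ m / η * (1 + m * Real.log 2)⌋₊ with hs
  have hsR : (s : ℝ) ≤ (1 + θ) ^ m / η * (1 + m * Real.log 2) := Nat.floor_le (by positivity)
  have hsJ : ∀ Z, ∑ c ∈ J Z, 2 ^ (mk c).card ≤ s := by
    intro Z
    apply Nat.le_floor
    have := hJ2 Z
    push_cast
    exact this
  -- the random function
  set PP : Mat m n → Finset (Fin m → Option Bool) :=
    fun Z => (J Z).biUnion (fun c => (B.filter (fun b => ∃ Y ∈ 𝒴 b, ∀ i, c i = false → Y i = Z i)).image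
      (patS (mk c ∪ S₀))) with hPP
  have hPcard : ∀ Z, (PP Z).card ≤ 2 ^ S₀.card * s := by
    intro Z
    refine (Finset.card_biUnion_le).trans ?_
    calc ∑ c ∈ J Z, ((B.filter (fun b => ∃ Y ∈ 𝒴 b, ∀ i, c i = false → Y i = Z i)).image
            (patS (mk c ∪ S₀))).card ≤ ∑ c ∈ J Z, 2 ^ S₀.card * 2 ^ (mk c).card := by
          refine Finset.sum_le_sum fun c _ => (patS_image_card _ _).trans ?_
          rw [← pow_add]
          exact Nat.pow_le_pow_right (by norm_num) ((Finset.card_union_le _ _).trans (by omega))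
      _ = 2 ^ S₀.card * ∑ c ∈ J Z, 2 ^ (mk c).card := by rw [Finset.mul_sum]
      _ ≤ 2 ^ S₀.card * s := Nat.mul_le_mul_left _ (hsJ Z)
  set H : Mat m n → (Fin m → Bool) → Bool := fun Z x =>
    decide (∀ π ∈ PP Z, decide (∃ i ∈ univ.filter (fun i => π i = some false),
        x i = true) = true) with hH
  have hHc : ∀ Z, MComp (2 ^ S₀.card * s * m) (H Z) := fun Z =>
    (mcomp_match (PP Z)).mono (Nat.mul_le_mul_right _ (hPcard Z))
  set Wt : Mat m n → ℝ := fun Z => ∏ i, ν (Z i) with hWt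
  have hWt0 : ∀ Z, 0 ≤ Wt Z := fun Z => Finset.prod_nonneg fun i _ => hν _
  set Φ : (Fin m → Bool) → ℝ := fun x => ∑ Z : Mat m n, Wt Z * MP_027d00_lc.ind (H Z x) with hΦ
  have hR : MRnd (2 ^ S₀.card * s * m) Φ := by
    refine ⟨Mat m n, inferInstance, Wt, H, hWt0, mea_univ hν1 m, hHc, fun x => rfl⟩
  have hΦ' : ∀ x, Φ x = mea ν (univ.filter (fun Z : Mat m n => H Z x = true)) := by
    intro x
    simp only [hΦ, mea]
    rw [Finset.sum_filter]
    refine Finset.sum_congr rfl fun Z _ => ?_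
    simp only [MP_027d00_lc.ind, hWt]
    split_ifs <;> simp
  -- the two bounds
  have hΦA : ∀ a ∈ A, p ≤ Φ a := by
    intro a ha
    have h1 : 𝒳 a ⊆ univ.filter (fun Z : Mat m n => H Z a = true) := by
      intro Z hZ
      rw [Finset.mem_filter]
      refine ⟨Finset.mem_univ _, ?_⟩
      simp only [hH]
      rw [decide_eq_true_eq]
      intro π hπ
      rw [decide_eq_true_eq]
      rw [hPP] at hπ
      obtain ⟨c, hcJ, hπ'⟩ := Finset.mem_biUnion.1 hπ
      obtain ⟨b, hb, rfl⟩ := Finset.mem_image.1 hπ'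
      rw [Finset.mem_filter] at hb
      obtain ⟨hbB, Y, hY', hYZ⟩ := hb
      obtain ⟨i, hi1, hi2, hi3⟩ := hc a ha b hbB Z hZ Y hY'
      have hmem : i ∈ mk c ∪ S₀ := by
        by_contra hne
        rw [Finset.mem_union, not_or] at hne
        have h3 : c i = false := by
          by_contra h4
          exact hne.1 (by rw [SComp.mk, Finset.mem_filter]; exact ⟨Finset.mem_univ _, by simpa using h4⟩)
        exact hi3 hne.2 (hYZ i h3).symm
      refine ⟨i, ?_, hi1⟩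
      rw [Finset.mem_filter]
      refine ⟨Finset.mem_univ _, ?_⟩
      simp only [patS, if_pos hmem, hi2]
    rw [hΦ']
    exact (hX a ha).trans (mea_mono hν h1)
  have hΦB : ∀ b ∈ B, Φ b ≤ p / 12 := by
    intro b hb
    have h1 : univ.filter (fun Z : Mat m n => H Z b = true) ⊆
        univ.filter (fun Z : Fin m → (Fin n → Bool) => TTw θ ν (𝒴 b) Z < η) := by
      intro Z hZ
      rw [Finset.mem_filter] at hZ ⊢
      refine ⟨Finset.mem_univ _, ?_⟩
      by_contra hn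
      have h2 := hZ.2
      simp only [hH] at h2
      rw [decide_eq_true_eq] at h2
      obtain ⟨c, hcJ, hc'⟩ := hJ1 Z b (Finset.mem_filter.2 ⟨hb, hn⟩)
      have h3 := h2 (patS (mk c ∪ S₀) b) (by
        rw [hPP]
        exact Finset.mem_biUnion.2 ⟨c, hcJ, Finset.mem_image.2
          ⟨b, Finset.mem_filter.2 ⟨hb, hc'⟩, rfl⟩⟩)
      rw [decide_eq_true_eq] at h3
      obtain ⟨i, hi, hbi⟩ := h3
      rw [Finset.mem_filter] at hi
      have h4 := hi.2
      by_cases hmem : i ∈ mk c ∪ S₀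
      · simp only [patS, if_pos hmem, Option.some.injEq] at h4
        rw [h4] at hbi
        exact absurd hbi (by simp)
      · simp only [patS, if_neg hmem] at h4
        exact absurd h4 (by simp)
    rw [hΦ']
    exact (mea_mono hν h1).trans
      (rhw_tail hθ hθ1 hν hν1 (𝒴 b) (ε := p / 12) hq (by positivity) (hY b hb))
  obtain ⟨t, ht, hsep⟩ := amp hm hR A B hp hp1 (δ := p / 12) (by linarith) hΦA hΦB
  exact ⟨t, s, ht, hsR, hsep⟩

/-- The separation lemma with the roles exchanged. -/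
theorem unit_sepM' {m n : ℕ} (hm : 1 ≤ m) {θ : ℝ} (hθ : 0 < θ) (hθ1 : θ ≤ 1 / 2)
    {ν : (Fin n → Bool) → ℝ} (hν : ∀ x, 0 ≤ ν x) (hν1 : ∑ x, ν x = 1)
    (A B : Finset (Fin m → Bool)) (𝒳 𝒴 : (Fin m → Bool) → Finset (Mat m n)) (S₀ : Finset (Fin m))
    {p q : ℝ} (hp : 0 < p) (hq : 0 < q) (hX : ∀ a ∈ A, p ≤ mea ν (𝒳 a))
    (hY : ∀ b ∈ B, q ≤ mea ν (𝒴 b))
    (hc : ∀ a ∈ A, ∀ b ∈ B, ∀ X ∈ 𝒳 a, ∀ Y ∈ 𝒴 b,
      ∃ i, a i = true ∧ b i = false ∧ (i ∉ S₀ → X i ≠ Y i)) :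
    ∃ t s : ℕ, (t : ℝ) * q ≤ 3 ∧
      (s : ℝ) ≤ (1 + θ) ^ m / (q / 12 * p) ^ (1 / θ) * (1 + m * Real.log 2) ∧
      SepM (216 * m ^ 3 * (t * (2 ^ S₀.card * s * m))) A B := by
  classical
  obtain ⟨t, s, ht, hs, hsep⟩ := unit_sepM hm hθ hθ1 hν hν1 (B.image flp) (A.image flp)
    (fun x => 𝒴 (flp x)) (fun x => 𝒳 (flp x)) S₀ hq hp
    (by
      intro a ha
      obtain ⟨b, hb, rfl⟩ := Finset.mem_image.1 ha
      rw [flp_flp]
      exact hY b hb)
    (by
      intro a ha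
      obtain ⟨b, hb, rfl⟩ := Finset.mem_image.1 ha
      rw [flp_flp]
      exact hX b hb)
    (by
      intro x hx y hy X hX' Y hY'
      obtain ⟨b, hb, rfl⟩ := Finset.mem_image.1 hx
      obtain ⟨a, ha, rfl⟩ := Finset.mem_image.1 hy
      rw [flp_flp] at hX' hY'
      obtain ⟨i, h1, h2, h3⟩ := hc a ha b hb Y hY' X hX'
      exact ⟨i, by simp [flp, h2], by simp [flp, h1], fun h => (h3 h).symm⟩)
  exact ⟨t, s, ht, hs, hsep.dual⟩

end Pool.Agent.H.MP_027d00_lc.Monot
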