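import Pool.Agent.H.MP_027d00_lc.mono.Drop
import Pool.Agent.H.MP_027d00_lc.mono.Heavy
import Pool.Agent.H.MP_027d00_lc.mono.SepU
import Pool.Agent.H.MP_027d00_lc.strong.Main3

/-!
# The explicit bound for the monotone composition
-/

set_option autoImplicit false

open Finset

namespace Pool.Agent.H.MP_027d00_lc.Monot

open UComp (Mat W W_nonneg W_supp rows)
open SComp (pr pr_nonneg pr_mono pr_univ pr_union pr_le_of mea smallSets card_smallSets SS3 size_le3
  rootS)

/-! ### the densities -/

/-- The density of `S` for Alice's type `a`. -/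
noncomputable def dA {m n : ℕ} (μ : Bool → (Fin n → Bool) → ℝ) (S : Finset (Mat m n))
    (a : Fin m → Bool) : ℝ :=
  pr μ (fun _ : Fin m => true) (univ.filter (fun X : Mat m n => asA a univ X ∈ S))

/-- The density of `T` for Bob's type `b`. -/
noncomputable def dB {m n : ℕ} (μ : Bool → (Fin n → Bool) → ℝ) (T : Finset (Mat m n))
    (b : Fin m → Bool) : ℝ :=
  pr μ (fun _ : Fin m => false) (univ.filter (fun Y : Mat m n => asB b Y ∈ T))

theorem dA_mono {m n : ℕ} {μ : Bool → (Fin n → Bool) → ℝ} (h0 : ∀ b x, 0 ≤ μ b x)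
    (S T : Finset (Mat m n)) (h : S ⊆ T) (a : Fin m → Bool) : dA μ S a ≤ dA μ T a := by
  refine pr_mono h0 _ fun X hX => ?_
  rw [Finset.mem_filter] at hX ⊢
  exact ⟨hX.1, h hX.2⟩

theorem dB_mono {m n : ℕ} {μ : Bool → (Fin n → Bool) → ℝ} (h0 : ∀ b x, 0 ≤ μ b x)
    (S T : Finset (Mat m n)) (h : S ⊆ T) (a : Fin m → Bool) : dB μ S a ≤ dB μ T a := by
  refine pr_mono h0 _ fun X hX => ?_
  rw [Finset.mem_filter] at hX ⊢
  exact ⟨hX.1, h hX.2⟩

theorem dA_union {m n : ℕ} {μ : Bool → (Fin n → Bool) → ℝ} (h0 : ∀ b x, 0 ≤ μ b x)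
    (S T : Finset (Mat m n)) (a : Fin m → Bool) : dA μ (S ∪ T) a ≤ dA μ S a + dA μ T a := by
  classical
  refine (pr_mono h0 _ ?_).trans (pr_union h0 _ _ _)
  intro X hX
  rw [Finset.mem_filter, Finset.mem_union] at hX
  rw [Finset.mem_union, Finset.mem_filter, Finset.mem_filter]
  rcases hX.2 with h | h
  · exact Or.inl ⟨hX.1, h⟩
  · exact Or.inr ⟨hX.1, h⟩

theorem dB_union {m n : ℕ} {μ : Bool → (Fin n → Bool) → ℝ} (h0 : ∀ b x, 0 ≤ μ b x)
    (S T : Finset (Mat m n)) (a : Fin m → Bool) : dB μ (S ∪ T) a ≤ dB μ S a + dB μ T a := by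
  classical
  refine (pr_mono h0 _ ?_).trans (pr_union h0 _ _ _)
  intro X hX
  rw [Finset.mem_filter, Finset.mem_union] at hX
  rw [Finset.mem_union, Finset.mem_filter, Finset.mem_filter]
  rcases hX.2 with h | h
  · exact Or.inl ⟨hX.1, h⟩
  · exact Or.inr ⟨hX.1, h⟩

/-! ### the whole game -/

/-- A monotone function with two values has the value one at the all ones vector. -/
theorem g_top {n : ℕ} {g : (Fin n → Bool) → Bool} (hmon : Monotone g) (h : ∃ x, g x = true) :
    g (fun _ => true) = true := by
  obtain ⟨x, hx⟩ := h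
  have h1 : g x ≤ g (fun _ => true) := hmon (fun i => Bool.le_true _)
  rw [hx] at h1
  exact top_le_iff.1 h1

theorem g_bot {n : ℕ} {g : (Fin n → Bool) → Bool} (hmon : Monotone g) (h : ∃ x, g x = false) :
    g (fun _ => false) = false := by
  obtain ⟨x, hx⟩ := h
  have h1 : g (fun _ => false) ≤ g x := hmon (fun i => Bool.false_le _)
  rw [hx] at h1
  exact le_bot_iff.1 h1

/-- The constant rows. -/
def cst (n : ℕ) (b : Bool) : Fin n → Bool := fun _ => b

theorem g_cst {n : ℕ} {g : (Fin n → Bool) → Bool} (hmon : Monotone g) (h1 : ∃ x, g x = true)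
    (h0 : ∃ x, g x = false) (b : Bool) : g (cst n b) = b := by
  cases b
  · exact g_bot hmon h0
  · exact g_top hmon h1

/-- A separation of the whole game gives a formula for the inner function. -/
theorem comp_gM {m n c : ℕ} {g : (Fin n → Bool) → Bool} (hmon : Monotone g)
    (hg1 : ∃ x, g x = true) (hg0 : ∃ x, g x = false)
    {f : (Fin m → Bool) → Bool} (hfm : Monotone f) (hf : ∃ a b, f a = true ∧ f b = false)
    (h : MSep c (rootS f g true : Finset (Mat m n)) (rootS f g false)) : MComp c g := by
  classical
  have hpt := g_cst hmon hg1 hg0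
  obtain ⟨a, b, i, ha, hb, hab, hj⟩ := SComp.exists_edge hf
  have hrow : ∀ c : Fin m → Bool, rows g (fun j => cst n (c j)) = c := by
    intro c; funext j; exact hpt (c j)
  have hai : a i = true := by
    by_contra hne
    have h1 : a i = false := by simpa using hne
    have h2 : b i = true := by
      cases e : b i
      · exact absurd (e.trans h1.symm) hab
      · rfl
    have h3 : a ≤ b := by
      intro j
      by_cases hji : j = i
      · rw [hji, h1]; exact Bool.false_le _
      · rw [hj j hji]
    have h4 := hfm h3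
    rw [ha, hb] at h4
    exact absurd h4 (by decide)
  have hbi : b i = false := by
    cases e : b i
    · rfl
    · exact absurd (e.trans hai.symm) hab
  rcases h with h | h | ⟨F, hF, h1, h2⟩
  · have : (fun j => cst n (a j)) ∈ (∅ : Finset (Mat m n)) := by
      rw [← h, rootS, Finset.mem_filter]
      exact ⟨Finset.mem_univ _, by rw [hrow]; exact ha⟩
    exact absurd this (Finset.notMem_empty _)
  · have : (fun j => cst n (b j)) ∈ (∅ : Finset (Mat m n)) := by
      rw [← h, rootS, Finset.mem_filter]
      exact ⟨Finset.mem_univ _, by rw [hrow]; exact hb⟩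
    exact absurd this (Finset.notMem_empty _)
  · have hr : ∀ (x : Fin n → Bool) (c : Fin m → Bool), (∀ j, j ≠ i → c j = a j) → g x = c i →
        rows g (Function.update (fun j => cst n (a j)) i x) = c := by
      intro x c hc hx
      funext j
      by_cases hji : j = i
      · subst hji; simp [rows, hx]
      · simp only [rows, Function.update_of_ne hji, hpt]
        exact (hc j hji).symm
    have key : ∀ x : Fin n → Bool, F.at (Function.update (fun j => cst n (a j)) i x) = g x := by
      intro x
      cases hx : g x with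
      | true =>
        refine h1 _ ?_
        rw [rootS, Finset.mem_filter]
        exact ⟨Finset.mem_univ _, by rw [hr x a (fun _ _ => rfl) (hx.trans hai.symm)]; exact ha⟩
      | false =>
        refine h2 _ ?_
        rw [rootS, Finset.mem_filter]
        exact ⟨Finset.mem_univ _, by rw [hr x b hj (hx.trans hbi.symm)]; exact hb⟩
    have h3 := F.toMComp (W := Fin n)
      (fun v x => Function.update (fun j => cst n (a j)) i x v.1 v.2) (by
        intro v
        by_cases hv : v.1 = i
        · have e : (fun x : Fin n → Bool =>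
              Function.update (fun j => cst n (a j)) i x v.1 v.2) = fun x => x v.2 := by
            funext x
            rw [hv, Function.update_self]
          rw [e]
          exact MComp.var _
        · have e : (fun x : Fin n → Bool =>
              Function.update (fun j => cst n (a j)) i x v.1 v.2) = fun _ => cst n (a v.1) v.2 := by
            funext x
            rw [Function.update_of_ne hv]
          rw [e]
          exact MComp.const _ _)
    exact (h3.mono hF).congr key

/-- A separation of the whole game gives a formula for the outer function. -/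
theorem comp_fM {m n c : ℕ} {g : (Fin n → Bool) → Bool} (hmon : Monotone g)
    (hg1 : ∃ x, g x = true) (hg0 : ∃ x, g x = false)
    {f : (Fin m → Bool) → Bool} (h : MSep c (rootS f g true : Finset (Mat m n)) (rootS f g false)) :
    MComp c f := by
  classical
  have hpt := g_cst hmon hg1 hg0
  have hrow : ∀ c : Fin m → Bool, rows g (fun j => cst n (c j)) = c := by
    intro c; funext j; exact hpt (c j)
  rcases h with h | h | ⟨F, hF, h1, h2⟩
  · have : f = fun _ => false := by
      funext a
      by_contra hne
      have : (fun j => cst n (a j)) ∈ (∅ : Finset (Mat m n)) := by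
        rw [← h, rootS, Finset.mem_filter]
        exact ⟨Finset.mem_univ _, by rw [hrow]; simpa using hne⟩
      exact absurd this (Finset.notMem_empty _)
    rw [this]
    exact MComp.const _ _
  · have : f = fun _ => true := by
      funext a
      by_contra hne
      have : (fun j => cst n (a j)) ∈ (∅ : Finset (Mat m n)) := by
        rw [← h, rootS, Finset.mem_filter]
        exact ⟨Finset.mem_univ _, by rw [hrow]; simpa using hne⟩
      exact absurd this (Finset.notMem_empty _)
    rw [this]
    exact MComp.const _ _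
  · have h3 := F.toMComp (W := Fin m) (fun v a => cst n (a v.1) v.2) (fun v => MComp.var v.1)
    refine (h3.mono hF).congr fun a => ?_
    cases hfa : f a with
    | true =>
      refine h1 (fun j => cst n (a j)) ?_
      rw [rootS, Finset.mem_filter]
      exact ⟨Finset.mem_univ _, by rw [hrow]; exact hfa⟩
    | false =>
      refine h2 (fun j => cst n (a j)) ?_
      rw [rootS, Finset.mem_filter]
      exact ⟨Finset.mem_univ _, by rw [hrow]; exact hfa⟩

/-! ### the pieces -/

theorem pr_eq_mea {m n : ℕ} (μ : Bool → (Fin n → Bool) → ℝ) (b : Bool) (S : Finset (Mat m n)) :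
    pr μ (fun _ : Fin m => b) S = mea (μ b) S := rfl

/-- The separation of the types that are heavy in a small piece. -/
theorem unitM {m n w r : ℕ} (hm : 1 ≤ m) {τ : ℝ} (hτ : 0 < τ) (hτ1 : 8 * m * τ ≤ 1)
    {g : (Fin n → Bool) → Bool} {μ : Bool → (Fin n → Bool) → ℝ} (hH : MHard m w τ g μ)
    {ρ θ : ℝ} (hρ : 0 < ρ) (hρr : (8 * m * τ) ^ r * (3 * m * τ) ≤ ρ) (hθ : 0 < θ)
    (hθ1 : θ ≤ 1 / 2) (S T : Finset (Mat m n)) (h : MSep w S T) (p q : ℝ) (hp : 0 < p)
    (hp1 : p ≤ 1 / 2) (hq : 0 < q) (hq1 : q ≤ 1 / 2) (hpq : ρ ≤ p * q)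
    (A B : Finset (Fin m → Bool)) (hA : ∀ a ∈ A, p ≤ dA μ S a) (hB : ∀ b ∈ B, q ≤ dB μ T b) :
    SepM ((m + 1) ^ r * (216 * m ^ 3 * (2 ^ r * ⌊SS3 m ρ θ⌋₊ * m))) A B := by
  classical
  rcases h with h | h | ⟨F, hF, h1, h2⟩
  · have : A = ∅ := by
      rw [Finset.eq_empty_iff_forall_notMem]
      intro a ha
      have := hA a ha
      simp only [h, dA, Finset.notMem_empty, Finset.filter_false, pr, Finset.sum_empty] at this
      linarith
    rw [this]
    exact SepM.empty_left _ _
  · have : B = ∅ := by
      rw [Finset.eq_empty_iff_forall_notMem]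
      intro a ha
      have := hB a ha
      simp only [h, dB, Finset.notMem_empty, Finset.filter_false, pr, Finset.sum_empty] at this
      linarith
    rw [this]
    exact SepM.empty_right _ _
  · have hρp : ρ ≤ p := by nlinarith
    have hν0 : ∀ x, 0 ≤ μ false x := hH.nonneg false
    have hν1 : ∑ x, μ false x = 1 := hH.sum false
    -- the dropped rows
    have hdA : ∀ a ∈ A, ∃ J : Finset (Fin m), J.card ≤ r ∧
        p / 2 ≤ mea (μ false) (setA F a (univ \ J)) := by
      intro a ha
      have h3 := drop_rows1 hm hτ hτ1 hH (fam_A F hF a) r univ (fun _ => true) p hp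
        (hρr.trans hρp) (by
          refine (hA a ha).trans (pr_mono hH.nonneg _ ?_)
          intro X hX
          rw [Finset.mem_filter] at hX
          rw [mem_setA]
          exact h1 _ hX.2)
      obtain ⟨J, hJ, hJ'⟩ := h3
      exact ⟨J, hJ, by rwa [← pr_eq_mea]⟩
    have hdB : ∀ b ∈ B, q / 2 ≤ mea (μ false) (setB F b) := by
      intro b hb
      have h3 : dB μ T b ≤ mea (μ false) (setB F b) := by
        rw [← pr_eq_mea]
        refine pr_mono hH.nonneg _ ?_
        intro X hX
        rw [Finset.mem_filter] at hX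
        rw [mem_setB]
        exact h2 _ hX.2
      have := hB b hb
      linarith
    have hAU : A ⊆ (smallSets m r).biUnion (fun J => A.filter (fun a =>
        p / 2 ≤ mea (μ false) (setA F a (univ \ J)))) := by
      intro a ha
      obtain ⟨J, hJ, hJ'⟩ := hdA a ha
      rw [Finset.mem_biUnion]
      exact ⟨J, Finset.mem_filter.2 ⟨Finset.mem_univ _, hJ⟩, Finset.mem_filter.2 ⟨ha, hJ'⟩⟩
    have hcell : ∀ J ∈ smallSets m r,
        SepM (216 * m ^ 3 * (2 ^ r * ⌊SS3 m ρ θ⌋₊ * m))
          (A.filter (fun a => p / 2 ≤ mea (μ false) (setA F a (univ \ J)))) B := by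
      intro J hJ
      have hJr : J.card ≤ r := (Finset.mem_filter.1 hJ).2
      have hS0 : 2 ^ J.card ≤ 2 ^ r := Nat.pow_le_pow_right (by norm_num) hJr
      have hsz : ∀ t s : ℕ, t * s ≤ ⌊SS3 m ρ θ⌋₊ →
          216 * m ^ 3 * (t * (2 ^ J.card * s * m)) ≤
            216 * m ^ 3 * (2 ^ r * ⌊SS3 m ρ θ⌋₊ * m) := by
        intro t s hts
        refine Nat.mul_le_mul_left _ ?_
        calc t * (2 ^ J.card * s * m) = 2 ^ J.card * (t * s) * m := by ring
          _ ≤ 2 ^ r * ⌊SS3 m ρ θ⌋₊ * m := Nat.mul_le_mul_right _ (Nat.mul_le_mul hS0 hts)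
      have hconf : ∀ a b : Fin m → Bool, ∀ X ∈ setA F a (univ \ J), ∀ Y ∈ setB F b,
          ∃ i, a i = true ∧ b i = false ∧ (i ∉ J → X i ≠ Y i) := by
        intro a b X hX Y hY
        obtain ⟨i, hi1, hi2, hi3⟩ := conflict1 hX hY
        refine ⟨i, hi1, hi2, fun hi => hi3 ?_⟩
        rw [Finset.mem_sdiff]
        exact ⟨Finset.mem_univ _, hi⟩
      have hxy : ρ / 4 ≤ p / 2 * (q / 2) := by linarith
      rcases le_total q p with hle | hle
      · obtain ⟨t, s, ht, hs, hsep⟩ := unit_sepM hm hθ hθ1 hν0 hν1
          (A.filter (fun a => p / 2 ≤ mea (μ false) (setA F a (univ \ J)))) B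
          (fun a => setA F a (univ \ J)) (fun b => setB F b) J
          (p := p / 2) (q := q / 2) (by positivity) (by positivity)
          (fun a ha => (Finset.mem_filter.1 ha).2) hdB
          (fun a _ b _ X hX Y hY => hconf a b X hX Y hY)
        exact hsep.mono (hsz t s (size_le3 hρ hθ (by positivity) (by positivity) (by linarith)
          hxy ht hs)) (Finset.Subset.refl _) (Finset.Subset.refl _)
      · obtain ⟨t, s, ht, hs, hsep⟩ := unit_sepM' hm hθ hθ1 hν0 hν1
          (A.filter (fun a => p / 2 ≤ mea (μ false) (setA F a (univ \ J)))) B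
          (fun a => setA F a (univ \ J)) (fun b => setB F b) J
          (p := p / 2) (q := q / 2) (by positivity) (by positivity)
          (fun a ha => (Finset.mem_filter.1 ha).2) hdB
          (fun a _ b _ X hX Y hY => hconf a b X hX Y hY)
        exact hsep.mono (hsz t s (size_le3 hρ hθ (by positivity) (by positivity)
          (by linarith) (by linarith) ht hs)) (Finset.Subset.refl _) (Finset.Subset.refl _)
    have h3 := sepM_biUnion_left (smallSets m r) _ _ hcell
    refine h3.mono ?_ hAU (Finset.Subset.refl _)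
    exact Nat.mul_le_mul_right _ (card_smallSets m r)

/-- The explicit bound. -/
theorem main_explicitM {m n w : ℕ} (hm : 1 ≤ m) (hw : 1 ≤ w) {τ : ℝ} (hτ : 0 < τ)
    (hτ1 : 8 * m * τ ≤ 1) {g : (Fin n → Bool) → Bool} (hgm : Monotone g)
    {μ : Bool → (Fin n → Bool) → ℝ}
    (hH : MHard m w τ g μ) (hgw : ¬ MComp w g)
    {f : (Fin m → Bool) → Bool} (hfm : Monotone f) (hf : ∃ a b, f a = true ∧ f b = false)
    {F : Mf (Fin m × Fin n)} (hF1 : ∀ X ∈ (rootS f g true : Finset (Mat m n)), F.at X = true)
    (hF0 : ∀ X ∈ (rootS f g false : Finset (Mat m n)), F.at X = false) :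
    ∃ N : ℕ, 1 ≤ N ∧ w * N ≤ 6 * F.size ∧
      ∀ r : ℕ, (8 * m * τ) ^ r * (3 * m * τ) ≤ 1 / (4 * N) → ∀ θ : ℝ, 0 < θ → θ ≤ 1 / 2 →
        msize f ≤ N * ((m + 1) ^ r *
          (216 * m ^ 3 * (2 ^ r * ⌊SS3 m (1 / (4 * N)) θ⌋₊ * m))) := by
  classical
  have hsur : ∀ c : Bool, ∃ x, g x = c := by
    intro c
    have h1 := hH.sum c
    obtain ⟨x, _, hx⟩ := Finset.exists_ne_zero_of_sum_ne_zero (by rw [h1]; norm_num)
    exact ⟨x, hH.supp c x hx⟩
  have htop := g_top hgm (hsur true)
  have hbot := g_bot hgm (hsur false)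
  rcases dec_of_formula hw F (rootS f g true) (rootS f g false) hF1 hF0 with h | ⟨N, hd, hN⟩
  · exact absurd (comp_gM hgm (hsur true) (hsur false) hfm hf h) hgw
  refine ⟨N, hd.pos, hN, fun r hr θ hθ hθ1 => ?_⟩
  have hNR : (1 : ℝ) ≤ N := by exact_mod_cast hd.pos
  have hrootA : ∀ a : Fin m → Bool, f a = true → 1 / 2 ≤ dA μ (rootS f g true : Finset (Mat m n)) a := by
    intro a hc
    have h1 : pr μ (fun _ : Fin m => true) (univ : Finset (Mat m n)) ≤
        dA μ (rootS f g true : Finset (Mat m n)) a :=
      pr_le_of hH.nonneg hH.supp (g := g) (fun X _ hX => by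
        rw [Finset.mem_filter]
        refine ⟨Finset.mem_univ _, ?_⟩
        rw [rootS, Finset.mem_filter]
        refine ⟨Finset.mem_univ _, ?_⟩
        have e : rows g (asA a univ X) = a := by
          funext i
          cases hai : a i with
          | true =>
            have e1 : asA a univ X i = X i := by
              funext j; simp [asA, hai]
            show g (asA a univ X i) = true
            rw [e1]
            exact congrFun hX i
          | false =>
            have e1 : asA a univ X i = fun _ => false := by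
              funext j; simp [asA, hai]
            show g (asA a univ X i) = false
            rw [e1]
            exact hbot
        rw [e]
        exact hc)
    rw [pr_univ hH.sum] at h1
    linarith
  have hrootB : ∀ b : Fin m → Bool, f b = false →
      1 / 2 ≤ dB μ (rootS f g false : Finset (Mat m n)) b := by
    intro b hc
    have h1 : pr μ (fun _ : Fin m => false) (univ : Finset (Mat m n)) ≤
        dB μ (rootS f g false : Finset (Mat m n)) b :=
      pr_le_of hH.nonneg hH.supp (g := g) (fun X _ hX => by
        rw [Finset.mem_filter]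
        refine ⟨Finset.mem_univ _, ?_⟩
        rw [rootS, Finset.mem_filter]
        refine ⟨Finset.mem_univ _, ?_⟩
        have e : rows g (asB b X) = b := by
          funext i
          cases hbi : b i with
          | true =>
            have e1 : asB b X i = fun _ => true := by
              funext j; simp [asB, hbi]
            show g (asB b X i) = true
            rw [e1]
            exact htop
          | false =>
            have e1 : asB b X i = X i := by
              funext j; simp [asB, hbi]
            show g (asB b X i) = false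
            rw [e1]
            exact congrFun hX i
        rw [e]
        exact hc)
    rw [pr_univ hH.sum] at h1
    linarith
  have hsep := heavyD (r := 1 / (4 * (N : ℝ)))
    (K := (m + 1) ^ r * (216 * m ^ 3 * (2 ^ r * ⌊SS3 m (1 / (4 * N)) θ⌋₊ * m)))
    (dA μ) (dB μ) (dA_mono hH.nonneg) (dA_union hH.nonneg) (dB_mono hH.nonneg)
    (dB_union hH.nonneg)
    (fun S' T' h' p q hp hp1 hq hq1 hpq A B hA hB =>
      unitM hm hτ hτ1 hH (ρ := 1 / (4 * (N : ℝ))) (by positivity) hr hθ hθ1 S' T' h' p q hp hp1
        hq hq1 hpq A B hA hB) hd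
    (1 / 2) (1 / 2) (by norm_num) le_rfl (by norm_num) le_rfl (by
      have : 1 / (4 * (N : ℝ)) * N = 1 / 4 := by field_simp
      rw [this]; norm_num) (univ.filter (fun a => f a = true)) (univ.filter (fun b => f b = false))
    (fun a ha => hrootA a (Finset.mem_filter.1 ha).2)
    (fun b hb => hrootB b (Finset.mem_filter.1 hb).2)
  obtain ⟨h, hc, h1, h2⟩ := hsep
  have e : h = f := by
    funext a
    cases hfa : f a with
    | true => exact h1 a (by simp [hfa])
    | false => exact h2 a (by simp [hfa])
  rw [e] at hc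
  exact msize_le hc

end Pool.Agent.H.MP_027d00_lc.Monot
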